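import Pool.Agent.Y122.TQ.Defs
import Pool.Agent.H423R2.RGL.CC3
import Pool.Agent.H423R2.RGL.CC4

set_option autoImplicit false

/-! The approximate functional equation. -/

namespace Pool.Agent.Y122.TQ

open Finset Filter Topology MeasureTheory
open Pool.Agent.H306R2.RZ (js nu gm)
open Pool.Agent.H306R2.RG
open scoped Asymptotics

noncomputable section

/-- `θ(y) y^e` -/
def ps (φ : FD) (d : ℕ) (e y : ℝ) : ℝ := thg φ d y * y ^ e

lemma ps_int1 {φ : FD} {d : ℕ} (hc : ContinuousOn (thg φ d) (Set.Ioi 0))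
    (hd : ∃ C c : ℝ, 0 < C ∧ 0 < c ∧ ∀ y : ℝ, 1 ≤ y → |thg φ d y| ≤ C * Real.exp (-(c * y))) (e : ℝ) {a : ℝ}
    (ha : 0 < a) : IntegrableOn (ps φ d e) (Set.Ioi a) := by
  obtain ⟨C, c, hC, hc0, h⟩ := hd
  have hcont : ContinuousOn (ps φ d e) (Set.Ici a) := by
    refine (hc.mono fun y hy => lt_of_lt_of_le ha hy).mul ?_
    exact ContinuousOn.rpow_const continuousOn_id fun y hy => Or.inl (lt_of_lt_of_le ha hy).ne'
  refine integrable_of_isBigO_exp_neg (b := c / 2) (by positivity) hcont ?_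
  have h1 : thg φ d =O[atTop] fun y => Real.exp (-(c * y)) := by
    refine Asymptotics.IsBigO.of_bound C ?_
    filter_upwards [eventually_ge_atTop 1] with y hy
    rw [Real.norm_eq_abs, Real.norm_eq_abs, abs_of_pos (Real.exp_pos _)]
    exact h y hy
  have h2 : (fun y : ℝ => y ^ e) =O[atTop] fun y => Real.exp (c / 2 * y) :=
    (isLittleO_rpow_exp_pos_mul_atTop e (by positivity : 0 < c / 2)).isBigO
  refine (h1.mul h2).congr_right fun y => ?_
  rw [← Real.exp_add]; congr 1; ring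

lemma refl1 {φ : FD} {d : ℕ} (hF : ∀ y : ℝ, 0 < y → thg φ d (1 / y) = y ^ ((1 : ℝ) / 2 + φ.a) * thg φ d y)
    (e : ℝ) {y : ℝ} (hy : 0 < y) :
    (|(-1 : ℝ)| * y ^ ((-1 : ℝ) - 1)) • (Set.indicator (Set.Iio 1) (ps φ d e) (y ^ (-1 : ℝ))) =
      Set.indicator (Set.Ioi 1) (ps φ d (φ.a - 3 / 2 - e)) y := by
  rw [Real.rpow_neg_one]
  by_cases h1 : 1 < y
  · have h2 : y⁻¹ < 1 := inv_lt_one_of_one_lt₀ h1
    rw [Set.indicator_of_mem (show y⁻¹ ∈ Set.Iio (1:ℝ) from h2), Set.indicator_of_mem (show y ∈ Set.Ioi (1:ℝ) from h1)]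
    have h3 := hF y hy
    rw [one_div] at h3
    unfold ps
    rw [h3, smul_eq_mul, abs_neg, abs_one, one_mul, Real.inv_rpow hy.le, ← Real.rpow_neg hy.le]
    have h4 : y ^ ((φ.a : ℝ) - 3 / 2 - e) = y ^ ((-1 : ℝ) - 1) * (y ^ ((1 : ℝ) / 2 + φ.a) * y ^ (-e)) := by
      rw [← Real.rpow_add hy, ← Real.rpow_add hy]
      congr 1; ring
    rw [h4]; ring
  · have h2 : ¬ y⁻¹ < 1 := by
      rw [not_lt]
      exact (one_le_inv₀ hy).mpr (not_lt.mp h1)
    rw [Set.indicator_of_notMem (show y⁻¹ ∉ Set.Iio (1:ℝ) from h2), Set.indicator_of_notMem (show y ∉ Set.Ioi (1:ℝ) from h1),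
      smul_zero]

lemma ps_total {φ : FD} {d : ℕ} (hc : ContinuousOn (thg φ d) (Set.Ioi 0))
    (hd : ∃ C c : ℝ, 0 < C ∧ 0 < c ∧ ∀ y : ℝ, 1 ≤ y → |thg φ d y| ≤ C * Real.exp (-(c * y)))
    (hF : ∀ y : ℝ, 0 < y → thg φ d (1 / y) = y ^ ((1 : ℝ) / 2 + φ.a) * thg φ d y) (e : ℝ) :
    ∫ y in Set.Ioi 0, ps φ d e y =
      (∫ y in Set.Ioi 1, ps φ d e y) + ∫ y in Set.Ioi 1, ps φ d (φ.a - 3 / 2 - e) y := by
  have hI1 := ps_int1 hc hd e (zero_lt_one)
  have hI2 := ps_int1 hc hd (φ.a - 3 / 2 - e) (zero_lt_one)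
  have hJ2 : IntegrableOn (Set.indicator (Set.Ioi 1) (ps φ d (φ.a - 3 / 2 - e))) (Set.Ioi 0) :=
    (hI2.integrable_indicator measurableSet_Ioi).integrableOn
  have hJ1 : IntegrableOn (Set.indicator (Set.Iio 1) (ps φ d e)) (Set.Ioi 0) := by
    rw [← integrableOn_Ioi_comp_rpow_iff _ (show (-1 : ℝ) ≠ 0 by norm_num)]
    exact hJ2.congr_fun (fun y hy => (refl1 hF e hy).symm) measurableSet_Ioi
  have hK1 : ∫ y in Set.Ioi 0, Set.indicator (Set.Iio 1) (ps φ d e) y =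
      ∫ y in Set.Ioi 1, ps φ d (φ.a - 3 / 2 - e) y := by
    rw [← integral_comp_rpow_Ioi _ (show (-1 : ℝ) ≠ 0 by norm_num)]
    rw [setIntegral_congr_fun measurableSet_Ioi (fun y hy => refl1 hF e hy)]
    rw [setIntegral_indicator measurableSet_Ioi]
    congr 2
    ext y
    simp only [Set.mem_inter_iff, Set.mem_Ioi]
    constructor
    · exact fun h => h.2
    · exact fun h => ⟨by linarith, h⟩
  have hK2 : ∫ y in Set.Ioi 0, Set.indicator (Set.Ici 1) (ps φ d e) y = ∫ y in Set.Ioi 1, ps φ d e y := by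
    rw [setIntegral_indicator measurableSet_Ici]
    rw [show Set.Ioi (0:ℝ) ∩ Set.Ici 1 = Set.Ici 1 by
      ext y
      simp only [Set.mem_inter_iff, Set.mem_Ioi, Set.mem_Ici]
      constructor
      · exact fun h => h.2
      · exact fun h => ⟨by linarith, h⟩]
    exact integral_Ici_eq_integral_Ioi
  have hJ3 : IntegrableOn (Set.indicator (Set.Ici 1) (ps φ d e)) (Set.Ioi 0) := by
    have : IntegrableOn (ps φ d e) (Set.Ici 1) := by
      rw [integrableOn_Ici_iff_integrableOn_Ioi]; exact hI1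
    exact (this.integrable_indicator measurableSet_Ici).integrableOn
  have hsum : ∫ y in Set.Ioi 0, ps φ d e y =
      ∫ y in Set.Ioi 0, (Set.indicator (Set.Iio 1) (ps φ d e) y + Set.indicator (Set.Ici 1) (ps φ d e) y) := by
    refine setIntegral_congr_fun measurableSet_Ioi fun y _ => ?_
    by_cases h : y < 1
    · rw [Set.indicator_of_mem (show y ∈ Set.Iio (1:ℝ) from h),
        Set.indicator_of_notMem (show y ∉ Set.Ici (1:ℝ) from not_le.mpr h), add_zero]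
    · rw [Set.indicator_of_notMem (show y ∉ Set.Iio (1:ℝ) from h),
        Set.indicator_of_mem (show y ∈ Set.Ici (1:ℝ) from not_lt.mp h), zero_add]
  rw [hsum, integral_add hJ1 hJ3, hK1, hK2]
  ring

lemma vt_thg (φ : FD) (d : ℕ) {q : ℝ} (hq : q = (φ.r : ℝ) * d) (hq0 : 0 < q) (v : ℝ) :
    vt φ d v = thg φ d (q * v) := by
  unfold vt thg
  refine tsum_congr fun n => ?_
  congr 3
  rw [← hq]
  field_simp

lemma ps_scale (φ : FD) (d : ℕ) {q : ℝ} (hq : q = (φ.r : ℝ) * d) (hq0 : 0 < q) (e : ℝ) :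
    ∫ y in Set.Ioi 1, ps φ d e y = q ^ (e + 1) * ∫ v in Set.Ioi (1 / q), vt φ d v * v ^ e := by
  have h1 := integral_comp_mul_left_Ioi' (ps φ d e) (1 / q) hq0
  rw [show q * (1 / q) = 1 by field_simp] at h1
  rw [← h1, smul_eq_mul]
  have h2 : ∫ v in Set.Ioi (1 / q), ps φ d e (q * v) = ∫ v in Set.Ioi (1 / q), q ^ e * (vt φ d v * v ^ e) := by
    refine setIntegral_congr_fun measurableSet_Ioi fun v hv => ?_
    have hv0 : 0 < v := lt_trans (by positivity) hv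
    unfold ps
    rw [← vt_thg φ d hq hq0, Real.mul_rpow hq0.le hv0.le]
    ring
  rw [h2, integral_const_mul, Real.rpow_add hq0, Real.rpow_one]
  ring

theorem AFE : S_AFE := by
  intro φ hφ d hA hs δ hδ hδ1 w hw
  have hd0 : d ≠ 0 := hs.ne_zero
  obtain ⟨hc, hdec⟩ := LnkC.CC4 φ hφ d hd0
  have hF := LnkC.CC3 φ hφ d hA hs
  have hr : 0 < φ.r := by
    obtain ⟨ε, _, h | h | h | h⟩ := hφ <;> subst h <;> simp [F8, F4, F1]
  set q : ℝ := (φ.r : ℝ) * d with hq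
  have hq0 : 0 < q := by
    rw [hq]
    exact mul_pos (by exact_mod_cast hr) (by exact_mod_cast Nat.pos_of_ne_zero hd0)
  have ha0 : (0:ℝ) ≤ φ.a := Nat.cast_nonneg _
  have hgm : 0 < gm (1 / 2 + δ + φ.a) := by
    unfold gm
    exact mul_pos (Real.rpow_pos_of_pos Real.pi_pos _) (Real.Gamma_pos_of_pos (by positivity))
  have e1 : ∫ y in Set.Ioi (0:ℝ), thg φ d y * y ^ ((1 / 2 + δ + φ.a) / 2 - 1) =
      (∫ y in Set.Ioi 1, ps φ d (xe φ δ) y) + ∫ y in Set.Ioi 1, ps φ d (xe φ (-δ)) y := by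
    have h1 := ps_total hc hdec hF (xe φ δ)
    have h2 : (φ.a : ℝ) - 3 / 2 - xe φ δ = xe φ (-δ) := by unfold xe; ring
    rw [h2] at h1
    exact h1
  have e2 := ps_scale φ d hq hq0 (xe φ δ)
  have e3 := ps_scale φ d hq hq0 (xe φ (-δ))
  have e4 : gm (1 / 2 + δ + φ.a) * LLg φ d (1 / 2 + δ) =
      (∫ v in Set.Ioi (1 / q), vt φ d v * v ^ (xe φ δ)) +
        q ^ (-δ) * ∫ v in Set.Ioi (1 / q), vt φ d v * v ^ (xe φ (-δ)) := by
    unfold LLg
    rw [e1, e2, e3, ← hq]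
    have h3 : (1 / 2 + δ + (φ.a : ℝ)) / 2 = xe φ δ + 1 := by unfold xe; ring
    rw [h3]
    have h4 : q ^ (xe φ (-δ) + 1) = q ^ (xe φ δ + 1) * q ^ (-δ) := by
      rw [← Real.rpow_add hq0]; congr 1; unfold xe; ring
    rw [h4]
    have h5 : q ^ (xe φ δ + 1) ≠ 0 := (Real.rpow_pos_of_pos hq0 _).ne'
    have h6 := hgm.ne'
    generalize gm (1 / 2 + δ + (φ.a : ℝ)) = g at *
    field_simp
  rw [e4]
  unfold R1 R2
  rw [← hq]
  have hI : ∀ x : ℝ, 1 / q ≤ x → IntegrableOn (fun v => vt φ d v * v ^ (xe φ δ)) (Set.Ioi x) := by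
    intro x hx
    have hx0 : 0 < x := lt_of_lt_of_le (by positivity) hx
    have h1 := ps_int1 hc hdec (xe φ δ) (show 0 < q * x by positivity)
    have h2 := (integrableOn_Ioi_comp_mul_left_iff (ps φ d (xe φ δ)) x hq0).mpr h1
    have h3 := h2.const_mul (q ^ (-(xe φ δ)))
    refine IntegrableOn.congr_fun h3 (fun v hv => ?_) measurableSet_Ioi
    have hv0 : 0 < v := lt_trans hx0 hv
    unfold ps
    rw [← vt_thg φ d hq hq0, Real.mul_rpow hq0.le hv0.le]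
    have h4 : q ^ (-(xe φ δ)) * q ^ (xe φ δ) = 1 := by
      rw [← Real.rpow_add hq0]; simp
    calc q ^ (-(xe φ δ)) * (vt φ d v * (q ^ (xe φ δ) * v ^ (xe φ δ))) =
        (q ^ (-(xe φ δ)) * q ^ (xe φ δ)) * (vt φ d v * v ^ (xe φ δ)) := by ring
      _ = _ := by rw [h4, one_mul]
  have h7 := intervalIntegral.integral_interval_add_Ioi (hI (1 / q) le_rfl) (hI w hw)
  rw [← h7]
  ring

end

end Pool.Agent.Y122.TQ
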