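import Pool.Agent.Y122.TQ.Defs3

set_option autoImplicit false

/-! Large deviations from the moments. -/

namespace Pool.Agent.Y122.TQ

open Finset Filter Topology MeasureTheory
open Pool.Agent.Y746.OA (clip clip_pos)

noncomputable section

/-- Chernoff and tilting for a finite family with quadratic moment exponents. -/
lemma ld_abs {ι : Type*} (Ω : Finset ι) (w : ι → ℝ) (hw : ∀ i ∈ Ω, 0 < w i) {κ β h δ X c1 c2 u : ℝ}
    (hu : u = β + κ / 2) (hβ : 0 ≤ β) (hh : 0 < h) (hδ : 0 < δ) (_hδ1 : δ < 1) (hX : 0 < X) (hc1 : 0 < c1)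
    (hc2 : 0 < c2) (m0 : ∑ i ∈ Ω, w i ^ β ≤ c2 * X * δ ^ (-(β * (β + κ) / 2)))
    (m1 : c1 * X * δ ^ (-((β + h) * (β + h + κ) / 2)) ≤ ∑ i ∈ Ω, w i ^ (β + h))
    (m2 : ∑ i ∈ Ω, w i ^ (β + 2 * h) ≤ c2 * X * δ ^ (-((β + 2 * h) * (β + 2 * h + κ) / 2)))
    (hs : 4 * c2 * δ ^ (h ^ 2 / 2) ≤ c1) :
    ((Ω.filter (fun i => δ ^ (-u) ≤ w i)).card : ℝ) ≤ c2 * X * δ ^ (β ^ 2 / 2) ∧
    c1 / 2 * X * δ ^ (β ^ 2 / 2 + 2 * h * β + 3 * h ^ 2 / 2) ≤
      ((Ω.filter (fun i => δ ^ (-u) ≤ w i)).card : ℝ) := by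
  classical
  set x := δ ^ (-u) with hx
  have hx0 : 0 < x := Real.rpow_pos_of_pos hδ _
  set F := Ω.filter (fun i => x ≤ w i) with hF
  set y := δ ^ (-(u + 2 * h)) with hy
  have hy0 : 0 < y := Real.rpow_pos_of_pos hδ _
  have hcard0 : (0:ℝ) ≤ F.card := Nat.cast_nonneg _
  constructor
  · have h1 : x ^ β * F.card ≤ ∑ i ∈ Ω, w i ^ β := by
      calc x ^ β * F.card = ∑ _i ∈ F, x ^ β := by rw [sum_const, nsmul_eq_mul]; ring
        _ ≤ ∑ i ∈ F, w i ^ β := sum_le_sum fun i hi => by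
            rw [hF, mem_filter] at hi
            exact Real.rpow_le_rpow hx0.le hi.2 hβ
        _ ≤ ∑ i ∈ Ω, w i ^ β := sum_le_sum_of_subset_of_nonneg (filter_subset _ _)
            fun i hi _ => Real.rpow_nonneg (hw i hi).le _
    have h2 := h1.trans m0
    have h3 : x ^ β = δ ^ (-(u * β)) := by rw [hx, ← Real.rpow_mul hδ.le]; congr 1; ring
    have h4 : c2 * X * δ ^ (-(β * (β + κ) / 2)) = x ^ β * (c2 * X * δ ^ (β ^ 2 / 2)) := by
      rw [h3]
      have : δ ^ (-(β * (β + κ) / 2)) = δ ^ (-(u * β)) * δ ^ (β ^ 2 / 2) := by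
        rw [← Real.rpow_add hδ]; congr 1; rw [hu]; ring
      rw [this]; ring
    rw [h4] at h2
    exact le_of_mul_le_mul_left h2 (Real.rpow_pos_of_pos hx0 _)
  · have hb' : 0 ≤ β + h := by linarith
    -- pointwise
    have hpt : ∀ i ∈ Ω, w i ^ (β + h) ≤ x ^ h * w i ^ β + y ^ (-h) * w i ^ (β + 2 * h) +
        (if x ≤ w i then y ^ (β + h) else 0) := by
      intro i hi
      have hwi := hw i hi
      have a1 : 0 ≤ x ^ h * w i ^ β := by positivity
      have a2 : 0 ≤ y ^ (-h) * w i ^ (β + 2 * h) := by positivity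
      have a3 : 0 ≤ (if x ≤ w i then y ^ (β + h) else 0) := by split_ifs <;> positivity
      rcases lt_or_ge (w i) x with hlt | hge
      · have : w i ^ (β + h) ≤ x ^ h * w i ^ β := by
          rw [Real.rpow_add hwi, mul_comm]
          exact mul_le_mul_of_nonneg_right (Real.rpow_le_rpow hwi.le hlt.le hh.le) (by positivity)
        linarith
      · rcases le_or_gt (w i) y with hle | hgt
        · have : w i ^ (β + h) ≤ y ^ (β + h) := Real.rpow_le_rpow hwi.le hle hb'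
          rw [if_pos hge] at a3 ⊢
          linarith
        · have : w i ^ (β + h) ≤ y ^ (-h) * w i ^ (β + 2 * h) := by
            have e1 : w i ^ (β + h) = w i ^ (-h) * w i ^ (β + 2 * h) := by
              rw [← Real.rpow_add hwi]; congr 1; ring
            rw [e1]
            exact mul_le_mul_of_nonneg_right (Real.rpow_le_rpow_of_nonpos hy0 hgt.le (by linarith)) (by positivity)
          linarith
    have hsum := sum_le_sum hpt
    rw [sum_add_distrib, sum_add_distrib, ← mul_sum, ← mul_sum, ← sum_filter, sum_const, nsmul_eq_mul, ← hF] at hsum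
    set R := X * δ ^ (-((β + h) * (β + h + κ) / 2)) with hR
    have hR0 : 0 < R := mul_pos hX (Real.rpow_pos_of_pos hδ _)
    have e1 : x ^ h * (c2 * X * δ ^ (-(β * (β + κ) / 2))) = c2 * δ ^ (h ^ 2 / 2) * R := by
      have e2 : x ^ h = δ ^ (-(u * h)) := by rw [hx, ← Real.rpow_mul hδ.le]; congr 1; ring
      have e3 : δ ^ (-(u * h)) * δ ^ (-(β * (β + κ) / 2)) = δ ^ (h ^ 2 / 2) * δ ^ (-((β + h) * (β + h + κ) / 2)) := by
        rw [← Real.rpow_add hδ, ← Real.rpow_add hδ]; congr 1; rw [hu]; ring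
      calc x ^ h * (c2 * X * δ ^ (-(β * (β + κ) / 2))) =
          c2 * X * (δ ^ (-(u * h)) * δ ^ (-(β * (β + κ) / 2))) := by rw [e2]; ring
        _ = _ := by rw [e3, hR]; ring
    have e4 : y ^ (-h) * (c2 * X * δ ^ (-((β + 2 * h) * (β + 2 * h + κ) / 2))) = c2 * δ ^ (h ^ 2 / 2) * R := by
      have e2 : y ^ (-h) = δ ^ ((u + 2 * h) * h) := by rw [hy, ← Real.rpow_mul hδ.le]; congr 1; ring
      have e3 : δ ^ ((u + 2 * h) * h) * δ ^ (-((β + 2 * h) * (β + 2 * h + κ) / 2)) =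
          δ ^ (h ^ 2 / 2) * δ ^ (-((β + h) * (β + h + κ) / 2)) := by
        rw [← Real.rpow_add hδ, ← Real.rpow_add hδ]; congr 1; rw [hu]; ring
      calc y ^ (-h) * (c2 * X * δ ^ (-((β + 2 * h) * (β + 2 * h + κ) / 2))) =
          c2 * X * (δ ^ ((u + 2 * h) * h) * δ ^ (-((β + 2 * h) * (β + 2 * h + κ) / 2))) := by rw [e2]; ring
        _ = _ := by rw [e3, hR]; ring
    have b1 : x ^ h * ∑ i ∈ Ω, w i ^ β ≤ c2 * δ ^ (h ^ 2 / 2) * R := by
      rw [← e1]; exact mul_le_mul_of_nonneg_left m0 (Real.rpow_nonneg hx0.le _)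
    have b2 : y ^ (-h) * ∑ i ∈ Ω, w i ^ (β + 2 * h) ≤ c2 * δ ^ (h ^ 2 / 2) * R := by
      rw [← e4]; exact mul_le_mul_of_nonneg_left m2 (Real.rpow_nonneg hy0.le _)
    have b3 : c1 * R ≤ ∑ i ∈ Ω, w i ^ (β + h) := by
      rw [hR, ← mul_assoc]; exact m1
    have b4 : 4 * c2 * δ ^ (h ^ 2 / 2) * R ≤ c1 * R := mul_le_mul_of_nonneg_right hs hR0.le
    have b5 : c1 / 2 * R ≤ F.card * y ^ (β + h) := by linarith
    have e5 : R = X * δ ^ (β ^ 2 / 2 + 2 * h * β + 3 * h ^ 2 / 2) * y ^ (β + h) := by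
      have e6 : y ^ (β + h) = δ ^ (-((u + 2 * h) * (β + h))) := by rw [hy, ← Real.rpow_mul hδ.le]; congr 1; ring
      rw [hR, e6, mul_assoc, ← Real.rpow_add hδ]
      congr 2; rw [hu]; ring
    rw [e5] at b5
    have hyp : 0 < y ^ (β + h) := Real.rpow_pos_of_pos hy0 _
    refine le_of_mul_le_mul_right ?_ hyp
    calc c1 / 2 * X * δ ^ (β ^ 2 / 2 + 2 * h * β + 3 * h ^ 2 / 2) * y ^ (β + h) =
        c1 / 2 * (X * δ ^ (β ^ 2 / 2 + 2 * h * β + 3 * h ^ 2 / 2) * y ^ (β + h)) := by ring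
      _ ≤ _ := b5

lemma ev_small (c e : ℝ) (hc : 0 < c) (he : 0 < e) : ∀ᶠ δ : ℝ in 𝓝[>] 0, δ ^ e ≤ c := by
  have h1 : Tendsto (fun δ : ℝ => δ ^ e) (𝓝 0) (𝓝 (0 ^ e)) :=
    (Real.continuousAt_rpow_const 0 e (Or.inr he.le)).tendsto
  rw [Real.zero_rpow he.ne'] at h1
  exact (h1.mono_left nhdsWithin_le_nhds).eventually (ge_mem_nhds hc)

theorem LD (h : S_MOM) : S_LD := by
  intro u η hη
  set b : ℝ := |u - 1 / 2| with hb
  have hb0 : 0 ≤ b := abs_nonneg _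
  set g : ℝ := min 1 (η / (2 * (2 * b + 2))) with hg
  have hg0 : 0 < g := lt_min one_pos (by positivity)
  have hg1 : g ≤ 1 := min_le_left _ _
  have hgη : 2 * g * b + 3 * g ^ 2 / 2 ≤ η / 2 := by
    have h1 : g ≤ η / (2 * (2 * b + 2)) := min_le_right _ _
    calc 2 * g * b + 3 * g ^ 2 / 2 ≤ g * (2 * b + 2) := by nlinarith
      _ ≤ (η / (2 * (2 * b + 2))) * (2 * b + 2) := mul_le_mul_of_nonneg_right h1 (by positivity)
      _ = η / 2 := by field_simp
  obtain ⟨K, hK⟩ := exists_nat_gt |u|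
  obtain ⟨hK1, hK2⟩ := abs_lt.mp hK
  classical
  obtain ⟨A, C, X0, δ0, c1, c2, hC, hδ0, hδ016, hc1, hc2, hm⟩ :=
    h ({b, b + g, b + 2 * g, -b, -(b + g), -(b + 2 * g)} : Finset ℝ) K
  have hev := ((ev_small (c1 / (4 * c2)) (g ^ 2 / 2) (by positivity) (by positivity)).and
    (ev_small (1 / c2) η (by positivity) hη)).and (ev_small (c1 / 2) (η / 2) (by positivity) (by positivity))
  rw [eventually_nhdsWithin_iff, Metric.eventually_nhds_iff] at hev
  obtain ⟨r, hr, hev⟩ := hev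
  refine ⟨C, X0, min δ0 (r / 2), hC, lt_min hδ0 (by positivity), (min_le_left _ _).trans hδ016,
    fun X hX ε hε δ hδ hδ1 => ?_⟩
  obtain ⟨hfin, hXp, hδp, hV1, hKV, hmom⟩ := hm X hX ε hε δ hδ (hδ1.trans (min_le_left _ _))
  have hδr : δ < r := by
    have := hδ1.trans (min_le_right _ _)
    linarith
  have hδlt : δ < 1 := by
    have := hδ1.trans (min_le_left _ _)
    linarith
  obtain ⟨⟨s1, s2⟩, s3⟩ := hev (y := δ) (by rw [Real.dist_eq, sub_zero, abs_of_pos hδp]; exact hδr) hδp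
  have s1' : 4 * c2 * δ ^ (g ^ 2 / 2) ≤ c1 := by
    rw [le_div_iff₀ (by positivity)] at s1
    linarith
  have s2' : c2 * δ ^ η ≤ 1 := by
    rw [le_div_iff₀ hc2] at s2
    linarith
  set V := Real.log X ^ A with hVd
  set Ω := hfin.toFinset with hΩ
  set w : (Σ N : ℕ, DirichletCharacter ℂ N) → ℝ := fun p => clip V ‖Lv δ p‖ with hwd
  have hw0 : ∀ p, 0 < w p := fun p => clip_pos hV1
  have hmo : ∀ γ : ℝ, ∑ᶠ p ∈ SX ε X, clip V ‖Lv δ p‖ ^ γ = ∑ p ∈ Ω, w p ^ γ := by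
    intro γ
    rw [finsum_mem_eq_finite_toFinset_sum _ hfin]
  have hxV : δ ^ (-u) < V := by
    refine lt_of_lt_of_le ?_ hKV
    exact Real.rpow_lt_rpow_of_exponent_gt hδp hδlt (by linarith)
  have hxV' : V⁻¹ < δ ^ (-u) := by
    have h1 : V⁻¹ ≤ δ ^ ((K:ℝ)) := by
      have h2 := inv_anti₀ (Real.rpow_pos_of_pos hδp _) hKV
      rwa [Real.rpow_neg hδp.le, inv_inv] at h2
    refine lt_of_le_of_lt h1 ?_
    exact Real.rpow_lt_rpow_of_exponent_gt hδp hδlt (by linarith)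
  have hx0 : 0 < δ ^ (-u) := Real.rpow_pos_of_pos hδp _
  constructor
  · intro hu2
    have hbu : b = u - 1 / 2 := abs_of_nonneg (by linarith)
    have k1 := (hmom b (by simp)).2
    have k2 := (hmom (b + g) (by simp)).1
    have k3 := (hmom (b + 2 * g) (by simp)).2
    rw [hmo] at k1 k2 k3
    obtain ⟨r1, r2⟩ := ld_abs Ω w (fun p _ => hw0 p) (κ := 1) (β := b) (h := g) (u := u) (by rw [hbu]; ring) hb0 hg0
      hδp hδlt hXp hc1 hc2 k1 k2 k3 s1'
    have hcard : ({p ∈ SX ε X | δ ^ (-u) ≤ ‖Lv δ p‖}.ncard : ℝ) = ((Ω.filter (fun p => δ ^ (-u) ≤ w p)).card : ℝ) := by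
      congr 1
      rw [← Set.ncard_coe_finset]
      congr 1
      ext p
      rw [Finset.coe_filter, Set.mem_setOf_eq, Set.mem_setOf_eq, hΩ, Set.Finite.mem_toFinset]
      constructor
      · rintro ⟨a1, a2⟩
        refine ⟨a1, ?_⟩
        simp only [hwd, clip]
        exact le_max_of_le_right (le_min a2 hxV.le)
      · rintro ⟨a1, a2⟩
        refine ⟨a1, ?_⟩
        simp only [hwd, clip] at a2
        rcases le_max_iff.mp a2 with a3 | a3
        · exact absurd a3 (not_le.mpr hxV')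
        · exact a3.trans (min_le_left _ _)
    rw [hcard, ← hbu]
    constructor
    · refine le_trans ?_ r2
      have e1 : X * δ ^ (b ^ 2 / 2 + η) = δ ^ (η / 2) * X * δ ^ (b ^ 2 / 2 + η / 2) := by
        have : δ ^ (b ^ 2 / 2 + η) = δ ^ (η / 2) * δ ^ (b ^ 2 / 2 + η / 2) := by
          rw [← Real.rpow_add hδp]; congr 1; ring
        rw [this]; ring
      rw [e1]
      have e2 : δ ^ (b ^ 2 / 2 + η / 2) ≤ δ ^ (b ^ 2 / 2 + 2 * g * b + 3 * g ^ 2 / 2) :=
        Real.rpow_le_rpow_of_exponent_ge hδp hδlt.le (by linarith)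
      exact mul_le_mul (mul_le_mul_of_nonneg_right s3 hXp.le) e2 (by positivity) (by positivity)
    · refine r1.trans ?_
      have e1 : δ ^ (b ^ 2 / 2) = δ ^ η * δ ^ (b ^ 2 / 2 - η) := by
        rw [← Real.rpow_add hδp]; congr 1; ring
      rw [e1]
      calc c2 * X * (δ ^ η * δ ^ (b ^ 2 / 2 - η)) = (c2 * δ ^ η) * (X * δ ^ (b ^ 2 / 2 - η)) := by ring
        _ ≤ 1 * (X * δ ^ (b ^ 2 / 2 - η)) := mul_le_mul_of_nonneg_right s2' (by positivity)
        _ = _ := one_mul _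
  · intro hu2
    have hbu : b = 1 / 2 - u := by rw [hb, abs_of_nonpos (by linarith)]; ring
    have k1 := (hmom (-b) (by simp)).2
    have k2 := (hmom (-(b + g)) (by simp)).1
    have k3 := (hmom (-(b + 2 * g)) (by simp)).2
    rw [hmo] at k1 k2 k3
    have hinv : ∀ γ : ℝ, ∑ p ∈ Ω, w p ^ (-γ) = ∑ p ∈ Ω, (w p)⁻¹ ^ γ := by
      intro γ
      refine sum_congr rfl fun p _ => ?_
      rw [Real.rpow_neg (hw0 p).le, Real.inv_rpow (hw0 p).le]
    rw [hinv] at k1 k2 k3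
    have x1 : (-b) * (-b + 1) / 2 = b * (b + (-1)) / 2 := by ring
    have x2 : (-(b + g)) * (-(b + g) + 1) / 2 = (b + g) * (b + g + (-1)) / 2 := by ring
    have x3 : (-(b + 2 * g)) * (-(b + 2 * g) + 1) / 2 = (b + 2 * g) * (b + 2 * g + (-1)) / 2 := by ring
    rw [x1] at k1
    rw [x2] at k2
    rw [x3] at k3
    obtain ⟨r1, r2⟩ := ld_abs Ω (fun p => (w p)⁻¹) (fun p _ => inv_pos.mpr (hw0 p)) (κ := -1) (β := b) (h := g)
      (u := -u) (by rw [hbu]; ring) hb0 hg0 hδp hδlt hXp hc1 hc2 k1 k2 k3 s1'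
    have hcard : ({p ∈ SX ε X | ‖Lv δ p‖ ≤ δ ^ (-u)}.ncard : ℝ) =
        ((Ω.filter (fun p => δ ^ (-(-u)) ≤ (w p)⁻¹)).card : ℝ) := by
      congr 1
      rw [← Set.ncard_coe_finset]
      congr 1
      ext p
      rw [Finset.coe_filter, Set.mem_setOf_eq, Set.mem_setOf_eq, hΩ, Set.Finite.mem_toFinset]
      have e0 : δ ^ (-(-u)) ≤ (w p)⁻¹ ↔ w p ≤ δ ^ (-u) := by
        rw [Real.rpow_neg hδp.le (-u)]
        exact inv_le_inv₀ hx0 (hw0 p)
      rw [e0]
      constructor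
      · rintro ⟨a1, a2⟩
        refine ⟨a1, ?_⟩
        simp only [hwd, clip]
        exact max_le hxV'.le ((min_le_left _ _).trans a2)
      · rintro ⟨a1, a2⟩
        refine ⟨a1, ?_⟩
        simp only [hwd, clip] at a2
        rcases min_le_iff.mp ((le_max_right _ _).trans a2) with a3 | a3
        · exact a3
        · exact absurd a3 (not_le.mpr hxV)
    have hbsq : (u - 1 / 2) ^ 2 = b ^ 2 := by rw [hbu]; ring
    rw [hcard, hbsq]
    constructor
    · refine le_trans ?_ r2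
      have e1 : X * δ ^ (b ^ 2 / 2 + η) = δ ^ (η / 2) * X * δ ^ (b ^ 2 / 2 + η / 2) := by
        have : δ ^ (b ^ 2 / 2 + η) = δ ^ (η / 2) * δ ^ (b ^ 2 / 2 + η / 2) := by
          rw [← Real.rpow_add hδp]; congr 1; ring
        rw [this]; ring
      rw [e1]
      have e2 : δ ^ (b ^ 2 / 2 + η / 2) ≤ δ ^ (b ^ 2 / 2 + 2 * g * b + 3 * g ^ 2 / 2) :=
        Real.rpow_le_rpow_of_exponent_ge hδp hδlt.le (by linarith)
      exact mul_le_mul (mul_le_mul_of_nonneg_right s3 hXp.le) e2 (by positivity) (by positivity)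
    · refine r1.trans ?_
      have e1 : δ ^ (b ^ 2 / 2) = δ ^ η * δ ^ (b ^ 2 / 2 - η) := by
        rw [← Real.rpow_add hδp]; congr 1; ring
      rw [e1]
      calc c2 * X * (δ ^ η * δ ^ (b ^ 2 / 2 - η)) = (c2 * δ ^ η) * (X * δ ^ (b ^ 2 / 2 - η)) := by ring
        _ ≤ 1 * (X * δ ^ (b ^ 2 / 2 - η)) := mul_le_mul_of_nonneg_right s2' (by positivity)
        _ = _ := one_mul _

end

end Pool.Agent.Y122.TQ
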