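import Pool.Agent.Y122.TQ.Defs2
import Pool.Agent.Y936.TQ.Fin1

set_option autoImplicit false

/-! The characters in terms of the families. -/

namespace Pool.Agent.Y122.TQ

open Finset Filter Topology MeasureTheory
open Pool.Agent.H306R2.RG
open Pool.Agent.Y936.TQ (All finsum_SX Lv_ch FE FE_fam mem_All ch ch_spec SX_fin sum_FE)

noncomputable section

lemma All_eq (φ : FD) (X : ℝ) : All φ X = Fs φ X := by
  classical
  unfold All Fs
  ext d
  rw [mem_filter, mem_filter, mem_range, mem_Icc]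
  constructor
  · rintro ⟨h1, h2, h3⟩
    have h4 : d ≠ 0 := h3.ne_zero
    exact ⟨⟨by omega, by omega⟩, h2, h3⟩
  · rintro ⟨⟨h0, h1⟩, h2, h3⟩
    exact ⟨by omega, h2, h3⟩

theorem TR : S_TR := by
  intro ε hε X hX
  refine ⟨SX_fin hε X, fun δ hδ hδ1 g => ?_⟩
  rw [finsum_SX hε X (fun p => g ‖Lv δ p‖)]
  have h1 : ∀ φ ∈ FE ε, ∑ d ∈ All φ X, g ‖Lv δ (ch φ d)‖ = ∑ d ∈ Fs φ X, g |LLg φ d (1 / 2 + δ)| := by
    intro φ hφ
    rw [← All_eq]
    refine sum_congr rfl fun d hd => ?_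
    obtain ⟨_, hA, hs⟩ := (mem_All (FE_fam hε hφ)).1 hd
    rw [Lv_ch (ch_spec (FE_fam hε hφ) hA hs) hδ]
  rw [sum_congr rfl h1, sum_FE]
  ring

end

end Pool.Agent.Y122.TQ
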