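import Pool.Agent.Y122.TQ.Defs2

set_option autoImplicit false

/-! Natural exponents: the product in terms of the zeta function. -/

namespace Pool.Agent.Y122.TQ

open Finset Filter Topology MeasureTheory

noncomputable section

lemma zeta_real_hasProd {δ : ℝ} (hδ : 0 < δ) :
    HasProd (fun p : Nat.Primes => (1 - (p : ℝ) ^ (-(1 + 2 * δ)))⁻¹) (riemannZeta (1 + 2 * δ : ℝ)).re ∧
      0 < (riemannZeta (1 + 2 * δ : ℝ)).re := by
  have hs : 1 < ((1 + 2 * δ : ℝ) : ℂ).re := by rw [Complex.ofReal_re]; linarith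
  have h1 := riemannZeta_eulerProduct_hasProd hs
  have e1 : ∀ p : Nat.Primes, (1 - (p : ℂ) ^ (-((1 + 2 * δ : ℝ) : ℂ)))⁻¹ =
      (((1 - (p : ℝ) ^ (-(1 + 2 * δ)))⁻¹ : ℝ) : ℂ) := by
    intro p
    rw [show ((p : ℂ) ^ (-((1 + 2 * δ : ℝ) : ℂ))) = (((p : ℝ) ^ (-(1 + 2 * δ)) : ℝ) : ℂ) by
      rw [Complex.ofReal_cpow (by positivity)]; push_cast; rfl]
    push_cast; rfl
  simp_rw [e1] at h1
  have him : (riemannZeta ((1 + 2 * δ : ℝ) : ℂ)).im = 0 := by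
    have h2 : Tendsto (fun s : Finset Nat.Primes => (∏ p ∈ s, (((1 - (p : ℝ) ^ (-(1 + 2 * δ)))⁻¹ : ℝ) : ℂ)).im)
        (SummationFilter.unconditional Nat.Primes).filter (𝓝 (riemannZeta ((1 + 2 * δ : ℝ) : ℂ)).im) :=
      (Complex.continuous_im.tendsto _).comp h1
    have h3 : (fun s : Finset Nat.Primes => (∏ p ∈ s, (((1 - (p : ℝ) ^ (-(1 + 2 * δ)))⁻¹ : ℝ) : ℂ)).im) = fun _ => 0 := by
      funext s
      rw [← Complex.ofReal_prod, Complex.ofReal_im]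
    rw [h3] at h2
    exact (tendsto_nhds_unique h2 tendsto_const_nhds)
  have h4 : HasProd (fun p : Nat.Primes => (1 - (p : ℝ) ^ (-(1 + 2 * δ)))⁻¹) (riemannZeta (1 + 2 * δ : ℝ)).re := by
    have h2 : Tendsto (fun s : Finset Nat.Primes => (∏ p ∈ s, (((1 - (p : ℝ) ^ (-(1 + 2 * δ)))⁻¹ : ℝ) : ℂ)).re)
        (SummationFilter.unconditional Nat.Primes).filter (𝓝 (riemannZeta ((1 + 2 * δ : ℝ) : ℂ)).re) :=
      (Complex.continuous_re.tendsto _).comp h1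
    have h3 : (fun s : Finset Nat.Primes => (∏ p ∈ s, (((1 - (p : ℝ) ^ (-(1 + 2 * δ)))⁻¹ : ℝ) : ℂ)).re) =
        fun s : Finset Nat.Primes => ∏ p ∈ s, (1 - (p : ℝ) ^ (-(1 + 2 * δ)))⁻¹ := by
      funext s
      rw [← Complex.ofReal_prod, Complex.ofReal_re]
    rw [h3] at h2
    exact h2
  refine ⟨h4, ?_⟩
  have hne : riemannZeta ((1 + 2 * δ : ℝ) : ℂ) ≠ 0 := riemannZeta_ne_zero_of_one_le_re hs.le
  have hre : (riemannZeta ((1 + 2 * δ : ℝ) : ℂ)).re ≠ 0 := by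
    intro h
    exact hne (Complex.ext h him)
  refine lt_of_le_of_ne ?_ (Ne.symm hre)
  refine ge_of_tendsto' h4 fun s => prod_nonneg fun p _ => ?_
  have hp : (1:ℝ) < p := by exact_mod_cast p.2.one_lt
  have : (p : ℝ) ^ (-(1 + 2 * δ)) ≤ 1 := Real.rpow_le_one_of_one_le_of_nonpos hp.le (by linarith)
  exact inv_nonneg.mpr (by linarith)

/-- the product for a natural exponent -/
lemma ak_hasProd {f : Nat.Primes → ℝ} {M : ℝ} (hf : HasProd f M) {δ : ℝ} (hδ : 0 < δ) (K : ℕ) :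
    HasProd (fun p : Nat.Primes => (1 - (p : ℝ) ^ (-(1 + 2 * δ))) ^ K * f p)
      (((riemannZeta (1 + 2 * δ : ℝ)).re ^ K)⁻¹ * M) := by
  obtain ⟨h1, h2⟩ := zeta_real_hasProd hδ
  have h3 : HasProd (fun p : Nat.Primes => (1 - (p : ℝ) ^ (-(1 + 2 * δ))) ^ K)
      ((riemannZeta (1 + 2 * δ : ℝ)).re ^ K)⁻¹ := by
    have h4 : Tendsto (fun s : Finset Nat.Primes => ((∏ p ∈ s, (1 - (p : ℝ) ^ (-(1 + 2 * δ)))⁻¹) ^ K)⁻¹)
        (SummationFilter.unconditional Nat.Primes).filter (𝓝 ((riemannZeta (1 + 2 * δ : ℝ)).re ^ K)⁻¹) :=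
      (Tendsto.pow h1 K).inv₀ (pow_ne_zero _ h2.ne')
    have h5 : (fun s : Finset Nat.Primes => ((∏ p ∈ s, (1 - (p : ℝ) ^ (-(1 + 2 * δ)))⁻¹) ^ K)⁻¹) =
        fun s : Finset Nat.Primes => ∏ p ∈ s, (1 - (p : ℝ) ^ (-(1 + 2 * δ))) ^ K := by
      funext s
      rw [prod_inv_distrib, inv_pow, inv_inv, prod_pow]
    rw [h5] at h4
    exact h4
  exact h3.mul hf

end

end Pool.Agent.Y122.TQ
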