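import Pool.Agent.H306R2.RG.Defs
import Pool.Agent.Y746.OA.SSum

set_option autoImplicit false

/-!
# Project TQ (helper122): truncated moments of quadratic Dirichlet L-functions near the central point

Definitions and statements of the tasks. The eight families `φ` of real primitive characters are
those of project RG (`Pool.Agent.H306R2.RG`).
-/

namespace Pool.Agent.Y122.TQ

open Finset Filter Topology MeasureTheory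
open Pool.Agent.H306R2 (dv dA)
open Pool.Agent.H306R2.RZ (js nu gm)
open Pool.Agent.H306R2.RG
open Pool.Agent.Y746.OA (tr clip rho)

noncomputable section

open Classical in
/-- the squarefree `d ≤ Y` of the family with `d ≥ Y^(3/4)` -/
def Om (φ : FD) (Y : ℕ) : Finset ℕ :=
  (Icc 1 Y).filter (fun d => φ.A d ∧ Squarefree d ∧ Y ^ 3 ≤ d ^ 4)

/-- the density of the squarefree members of the family -/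
def dens (φ : FD) : ℝ := φ.δ * (8 / Real.pi ^ 2)

/-- the mean value of `(e d | k)` over the family, `k` odd -/
def om (k : ℕ) : ℝ := if IsSquare k then nu k else 0

/-- the polynomial `∑_{n ≤ M, n odd} g(n) (e d | n) n^(-1/2-δ)` -/
def Qo (φ : FD) (g : ℕ → ℝ) (M : ℕ) (δ : ℝ) (d : ℕ) : ℝ :=
  ∑ n ∈ Icc 1 M, g n * jo φ d n * (n : ℝ) ^ (-(1 / 2 + δ))

/-- main term: `∑_{m odd} d_β(m²) ν(m) m^(-1-2δ)` -/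
def MT (β δ : ℝ) : ℝ := ∑' m : ℕ, if Odd m then dv β (m ^ 2) * nu m * (m : ℝ) ^ (-(1 + 2 * δ)) else 0

/-- theta function `∑ χ(n) n^a exp(-π n² v)` -/
def vt (φ : FD) (d : ℕ) (v : ℝ) : ℝ :=
  ∑' n : ℕ, cf φ d (n + 1) * ((n : ℝ) + 1) ^ φ.a * Real.exp (-(Real.pi * ((n : ℝ) + 1) ^ 2 * v))

/-- the same, over odd `n` -/
def vto (φ : FD) (d : ℕ) (v : ℝ) : ℝ :=
  ∑' n : ℕ, jo φ d (n + 1) * ((n : ℝ) + 1) ^ φ.a * Real.exp (-(Real.pi * ((n : ℝ) + 1) ^ 2 * v))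

/-- exponent of the Mellin transform -/
def xe (φ : FD) (δ : ℝ) : ℝ := (1 / 2 + δ + φ.a) / 2 - 1

/-- `∫_{1/(rd)}^{w} θ(v) v^(...) dv` -/
def R1 (φ : FD) (δ w : ℝ) (d : ℕ) : ℝ :=
  ∫ v in (1 / ((φ.r : ℝ) * d))..w, vt φ d v * v ^ (xe φ δ)

/-- the dual integral -/
def R2 (φ : FD) (δ : ℝ) (d : ℕ) : ℝ :=
  ((φ.r : ℝ) * d) ^ (-δ) * ∫ v in Set.Ioi (1 / ((φ.r : ℝ) * d)), vt φ d v * v ^ (xe φ (-δ))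

/-! ### Tasks -/

/-- ABS: the truncated power against the square of the polynomial, for a finite family. -/
def S_ABS : Prop := ∀ {ι : Type} (Ω : Finset ι) (D : ℝ → ι → ℝ) (z : ι → ℝ)
    (α b T L H X V C1 S : ℝ) (B : ℕ),
    |α| + 1 ≤ b → 0 < T → 0 ≤ S → 24 ≤ L → 1 ≤ H → 8 ≤ X → 0 ≤ C1 → 1 ≤ V →
    H * L ^ (B + 3) ≤ X → H * L ^ (B + 1) ≤ V → V ^ |2 * α| ≤ X →
    rho b X ((X ^ 3)⁻¹) ⌈L⌉₊ ≤ 28 * (b + 1) / L ^ (B + 1) →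
    (∀ i ∈ Ω, D 0 i = 1) →
    (∀ a b' : ℝ, |a| ≤ 2 * b → |b'| ≤ 2 * b →
      ∑ i ∈ Ω, (D (a + b') i - D a i * D b' i) ^ 2 ≤ T * (2 * H * (X ^ 16)⁻¹)) →
    (∀ a : ℝ, |a| ≤ 2 * b → ∑ i ∈ Ω, D a i ^ 2 ≤ T * (2 * H)) →
    ∑ i ∈ Ω, D α i ^ 4 ≤ T * (2 * H) →
    |∑ i ∈ Ω, D α i ^ 2 - T * S| ≤ T * (2 * H * (X ^ 16)⁻¹) →
    ∑ i ∈ Ω, (z i - D 1 i) ^ 2 ≤ T * (C1 * L * (X ^ 16)⁻¹) →
    112 * (b + 1) + 38 + (360 + 2 * C1) ≤ L →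
    |∑ i ∈ Ω, clip V |z i| ^ (2 * α) - T * S| ≤ T * (S + 1) / L ^ B

/-- ORTH: mean values of `(e d | k)` over the squarefree members of the family. -/
def S_ORTH : Prop := ∀ φ : FD, Fam φ → ∃ C : ℝ, 0 < C ∧ ∀ Y k : ℕ, 1 ≤ Y → Odd k →
    |∑ d ∈ Om φ Y, jo φ d k - dens φ * Y * om k| ≤ C * (Y : ℝ) ^ (3 / 4 : ℝ) * k

/-- MSP: mean squares of short polynomials. -/
def S_MSP : Prop := ∀ φ : FD, Fam φ → ∀ K : ℕ, ∃ (C : ℝ) (E : ℕ), 1 ≤ C ∧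
    ∀ g : ℕ → ℝ, (∀ n, |g n| ≤ dv K n) → ∀ N0 M Y : ℕ, 1 ≤ N0 → 1 ≤ M → 1 ≤ Y →
      (∀ n, n < N0 → g n = 0) → ∀ δ : ℝ, 0 < δ → δ ≤ 1 →
      ∑ d ∈ Om φ Y, Qo φ g M δ d ^ 2 ≤
        (Y : ℝ) * ((N0 : ℝ) ^ (-δ) * (C / δ) ^ E) + C * (Y : ℝ) ^ (3 / 4 : ℝ) * (M : ℝ) ^ E

/-- MAIN: the main term. -/
def S_MAIN : Prop := ∀ φ : FD, Fam φ → ∀ K : ℕ, ∃ (C : ℝ) (E : ℕ), 1 ≤ C ∧
    ∀ α : ℝ, |α| ≤ K → ∀ N Y : ℕ, 1 ≤ N → 1 ≤ Y → ∀ δ : ℝ, 0 < δ → δ ≤ 1 →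
      |∑ d ∈ Om φ Y, Qo φ (fun n => tr N (dA α) n) N δ d ^ 2 - dens φ * Y * MT (2 * α) δ| ≤
        (Y : ℝ) * ((N : ℝ) ^ (-(δ / 2)) * (C / δ) ^ E) + C * (Y : ℝ) ^ (3 / 4 : ℝ) * (N : ℝ) ^ E

/-- MTB: size of the main term. -/
def S_MTB : Prop := ∀ K : ℕ, ∃ (C : ℝ) (E : ℕ), 1 ≤ C ∧ ∀ β : ℝ, |β| ≤ K → ∀ δ : ℝ, 0 < δ →
    δ ≤ 1 → (Summable fun m : ℕ => if Odd m then dv β (m ^ 2) * nu m * (m : ℝ) ^ (-(1 + 2 * δ)) else 0) ∧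
      |MT β δ| ≤ (C / δ) ^ E

/-- PVJ: Pólya–Vinogradov for the Jacobi symbol modulo an odd non-square. -/
def S_PVJ : Prop := ∃ C : ℝ, 0 < C ∧ ∀ k Y : ℕ, Odd k → ¬ IsSquare k →
    |∑ d ∈ Icc 1 Y, js (d : ℤ) k| ≤ C * Real.sqrt k * (1 + Real.log k)

/-- TH1: mean square of the theta functions over all `d ≤ Y`, odd `n`. -/
def S_TH1 : Prop := ∀ φ : FD, Fam φ → ∃ C : ℝ, 0 < C ∧ ∀ Y : ℕ, 3 ≤ Y → ∀ v : ℝ,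
    1 / (8 * (Y : ℝ)) ≤ v →
    ∑ d ∈ Icc 1 Y, vto φ d v ^ 2 ≤
      C * Y * Real.log Y ^ 3 * v ^ (-((φ.a : ℝ) + 1 / 2)) * Real.exp (-v)

/-- TH2: mean square of the theta functions over the family. -/
def S_TH2 : Prop := ∀ φ : FD, Fam φ → ∃ C : ℝ, 0 < C ∧ ∀ Y : ℕ, 3 ≤ Y → ∀ v : ℝ,
    1 / (8 * (Y : ℝ)) ≤ v →
    ∑ d ∈ Om φ Y, vt φ d v ^ 2 ≤
      C * Y * Real.log Y ^ 3 * v ^ (-((φ.a : ℝ) + 1 / 2)) * Real.exp (-v)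

/-- AFE: the approximate functional equation, with a cut at `w`. -/
def S_AFE : Prop := ∀ φ : FD, Fam φ → ∀ d : ℕ, φ.A d → Squarefree d → ∀ δ : ℝ, 0 < δ → δ ≤ 1 / 4 →
    ∀ w : ℝ, 1 / ((φ.r : ℝ) * d) ≤ w →
      gm (1 / 2 + δ + φ.a) * LLg φ d (1 / 2 + δ) =
        (∫ v in Set.Ioi w, vt φ d v * v ^ (xe φ δ)) + R1 φ δ w d + R2 φ δ d

/-- ODD: passage to the odd `n` in the long integral. -/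
def S_ODD : Prop := ∀ φ : FD, Fam φ → ∀ d : ℕ, d ≠ 0 → ∀ δ : ℝ, 0 < δ → δ ≤ 1 / 4 → ∀ w : ℝ, 0 < w →
    (∫ v in Set.Ioi w, vt φ d v * v ^ (xe φ δ)) -
      φ.η * (2 : ℝ) ^ (-(1 / 2 + δ)) * ∫ v in Set.Ioi (4 * w), vt φ d v * v ^ (xe φ δ) =
    ∫ v in Set.Ioi w, vto φ d v * v ^ (xe φ δ)

/-- BIG: the long integral against the sharply cut polynomial. -/
def S_BIG : Prop := ∀ φ : FD, Fam φ → ∃ (C : ℝ) (E : ℕ), 1 ≤ C ∧ ∀ N Y : ℕ, 1 ≤ N → 1 ≤ Y →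
    ∀ δ : ℝ, 0 < δ → δ ≤ 1 / 4 →
      ∑ d ∈ Om φ Y, ((∫ v in Set.Ioi (1 / (N : ℝ) ^ 8), vto φ d v * v ^ (xe φ δ)) -
          gm (1 / 2 + δ + φ.a) * Qo φ (fun _ => 1) N δ d) ^ 2 ≤
        (Y : ℝ) * ((N : ℝ) ^ (-δ) * (C / δ) ^ E) + C * (Y : ℝ) ^ (3 / 4 : ℝ) * (N : ℝ) ^ E

/-- MSR: mean squares of the remainders. -/
def S_MSR : Prop := ∀ φ : FD, Fam φ → ∃ C : ℝ, 0 < C ∧ ∀ Y : ℕ, 3 ≤ Y → ∀ δ : ℝ, 0 < δ → δ ≤ 1 / 4 →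
    (∀ w : ℝ, w ≤ 4 → (∀ d ∈ Om φ Y, 1 / ((φ.r : ℝ) * d) ≤ w) →
      ∑ d ∈ Om φ Y, R1 φ δ w d ^ 2 ≤ C * Y * Real.log Y ^ 3 * (w ^ δ / δ ^ 2)) ∧
    ∑ d ∈ Om φ Y, R2 φ δ d ^ 2 ≤ C * Y * Real.log Y ^ 3 * ((Y : ℝ) ^ (-(δ / 2)) / δ ^ 2)

/-- ZZ: the L-value against the sharply cut polynomial. -/
def S_ZZ : Prop := ∀ φ : FD, Fam φ → ∃ (C : ℝ) (E : ℕ), 1 ≤ C ∧ ∀ N Y : ℕ, 1 ≤ N → 3 ≤ Y →
    N ^ 16 ≤ Y → ∀ δ : ℝ, 1 / Real.log Y ≤ δ → δ ≤ 1 / 4 →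
      ∑ d ∈ Om φ Y, ((1 - φ.η * (2 : ℝ) ^ (-(1 / 2 + δ))) * LLg φ d (1 / 2 + δ) -
          Qo φ (fun _ => 1) N δ d) ^ 2 ≤
        C * Real.log Y ^ E * ((Y : ℝ) * (N : ℝ) ^ (-δ) + (Y : ℝ) ^ (3 / 4 : ℝ) * (N : ℝ) ^ E)

/-- FAM: the theorem for one family. -/
def S_FAM : Prop := ∀ φ : FD, Fam φ → ∀ m : ℕ, ∃ c : ℝ, 0 < c ∧ ∀ B : ℕ, ∃ (A : ℕ) (C Y0 : ℝ), 0 < C ∧
    ∀ Y : ℕ, Y0 ≤ Y → ∀ δ : ℝ, C * Real.log (Real.log Y) / Real.log Y ≤ δ → δ ≤ 1 / 16 →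
    ∀ V : ℝ, Real.log Y ^ A ≤ V → V ≤ (Y : ℝ) ^ (c * δ) → ∀ β : ℝ, |β| ≤ m →
      |∑ d ∈ Om φ Y, clip V |LLg φ d (1 / 2 + δ)| ^ β -
        dens φ * Y * ((1 - φ.η * (2 : ℝ) ^ (-(1 / 2 + δ))) ^ (-β) * MT β δ)| ≤ Y / Real.log Y ^ B

/-- the real primitive characters `χ ≠ 1` of conductor `< X` with `χ(-1) = ε`: the characters
`χ_d`, `d` a fundamental discriminant of sign `ε`, `|d| < X`, `d ≠ 1` -/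
def SX (ε : ℤ) (X : ℝ) : Set (Σ N : ℕ, DirichletCharacter ℂ N) :=
  {p | p.1 ≠ 0 ∧ (p.1 : ℝ) < X ∧ p.2.IsPrimitive ∧ p.2 ^ 2 = 1 ∧ p.2 ≠ 1 ∧ p.2 (-1) = (ε : ℂ)}

/-- the Euler factor at `p` -/
def lfac (β δ : ℝ) (p : ℕ) : ℝ :=
  (1 + 1 / (p : ℝ))⁻¹ * (((1 - (p : ℝ) ^ (-(1 / 2 + δ))) ^ (-β) +
    (1 + (p : ℝ) ^ (-(1 / 2 + δ))) ^ (-β)) / 2 + 1 / p)

/-- EP: the Euler product of the main term. -/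
def S_EP : Prop := ∀ β δ : ℝ, 0 < δ →
    HasProd (fun p : Nat.Primes => lfac β δ p) (lfac β δ 2 * MT β δ)

open Classical in
/-- the value `L(1/2 + δ, χ)` -/
def Lv (δ : ℝ) (p : Σ N : ℕ, DirichletCharacter ℂ N) : ℂ :=
  if h : p.1 ≠ 0 then
    haveI : NeZero p.1 := ⟨h⟩
    DirichletCharacter.LFunction p.2 ((1 / 2 + δ : ℝ) : ℂ)
  else 0

/-- FIN: the theorem for all fundamental discriminants, in terms of `MT`. -/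
def S_FIN : Prop := ∀ m : ℕ, ∃ c : ℝ, 0 < c ∧ ∀ B : ℕ, ∃ (A : ℕ) (C X0 : ℝ), 0 < C ∧
    ∀ X : ℝ, X0 ≤ X → ∀ ε : ℤ, (ε = 1 ∨ ε = -1) → (SX ε X).Finite ∧
    ∀ δ : ℝ, C * Real.log (Real.log X) / Real.log X ≤ δ → δ ≤ 1 / 16 →
    ∀ V : ℝ, Real.log X ^ A ≤ V → V ≤ X ^ (c * δ) → ∀ β : ℝ, |β| ≤ m →
      |∑ᶠ p ∈ SX ε X, clip V ‖Lv δ p‖ ^ β - 3 / Real.pi ^ 2 * X * (lfac β δ 2 * MT β δ)| ≤
        X / Real.log X ^ B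

end

end Pool.Agent.Y122.TQ
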