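import Pool.Agent.Y122.TQ.Defs

set_option autoImplicit false

/-! Project TQ, second part: moments without truncation, `0 < β < 2`, and lower bounds. -/

namespace Pool.Agent.Y122.TQ

open Finset Filter Topology MeasureTheory
open Pool.Agent.H306R2 (dv dA)
open Pool.Agent.H306R2.RZ (js nu gm)
open Pool.Agent.H306R2.RG
open Pool.Agent.Y746.OA (tr clip rho)

noncomputable section

/-- CB: a convexity-type bound. -/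
def S_CB : Prop := ∀ φ : FD, Fam φ → ∃ C : ℝ, 0 < C ∧ ∀ d : ℕ, φ.A d → Squarefree d → ∀ δ : ℝ,
    0 < δ → δ ≤ 1 / 4 → |LLg φ d (1 / 2 + δ)| ≤ C * (d : ℝ) ^ (3 / 8 : ℝ)

open Classical in
/-- the members `d` of the family with `r d < X` -/
def Fs (φ : FD) (X : ℝ) : Finset ℕ :=
  (Icc 1 (⌈X / φ.r⌉₊ - 1)).filter (fun d => φ.A d ∧ Squarefree d)

/-- TR: the characters in terms of the families. -/
def S_TR : Prop := ∀ ε : ℤ, (ε = 1 ∨ ε = -1) → ∀ X : ℝ, 1 < X → (SX ε X).Finite ∧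
    ∀ δ : ℝ, 0 < δ → δ ≤ 1 / 4 → ∀ g : ℝ → ℝ,
      ∑ᶠ p ∈ SX ε X, g ‖Lv δ p‖ =
        ∑ d ∈ Fs (F8 ε) X, g |LLg (F8 ε) d (1 / 2 + δ)| +
        ∑ d ∈ Fs (F4 ε) X, g |LLg (F4 ε) d (1 / 2 + δ)| +
        ∑ d ∈ Fs (F1 ε 1) X, g |LLg (F1 ε 1) d (1 / 2 + δ)| +
        ∑ d ∈ Fs (F1 ε 5) X, g |LLg (F1 ε 5) d (1 / 2 + δ)|

/-- SM: second moment, upper bound. -/
def S_SM : Prop := ∃ (C X0 : ℝ) (E : ℕ), 0 < C ∧ ∀ X : ℝ, X0 ≤ X → ∀ ε : ℤ, (ε = 1 ∨ ε = -1) →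
    ∀ δ : ℝ, 16 / Real.log X ≤ δ → δ ≤ 1 / 16 →
      ∑ᶠ p ∈ SX ε X, ‖Lv δ p‖ ^ (2 : ℝ) ≤ C * X * Real.log X ^ E

/-- FIN2: all the moments of exponent between `0` and `2`, not truncated. -/
def S_FIN2 : Prop := ∀ β : ℝ, 0 < β → β < 2 → ∀ B : ℕ, ∃ C X0 : ℝ, 0 < C ∧
    ∀ X : ℝ, X0 ≤ X → ∀ ε : ℤ, (ε = 1 ∨ ε = -1) →
    ∀ δ : ℝ, C * Real.log (Real.log X) / Real.log X ≤ δ → δ ≤ 1 / 16 →
      |∑ᶠ p ∈ SX ε X, ‖Lv δ p‖ ^ β - 3 / Real.pi ^ 2 * X * (lfac β δ 2 * MT β δ)| ≤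
        X / Real.log X ^ B

/-- FIN3: lower bounds for all the moments of positive exponent. -/
def S_FIN3 : Prop := ∀ β : ℝ, 0 < β → ∀ B : ℕ, ∃ C X0 : ℝ, 0 < C ∧
    ∀ X : ℝ, X0 ≤ X → ∀ ε : ℤ, (ε = 1 ∨ ε = -1) →
    ∀ δ : ℝ, C * Real.log (Real.log X) / Real.log X ≤ δ → δ ≤ 1 / 16 →
      3 / Real.pi ^ 2 * X * (lfac β δ 2 * MT β δ) - X / Real.log X ^ B ≤
        ∑ᶠ p ∈ SX ε X, ‖Lv δ p‖ ^ β

end

end Pool.Agent.Y122.TQ
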