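import Pool.Agent.Y122.TQ.Fam
import Pool.Agent.Y122.TQ.Zeta
import Pool.Agent.Y122.TQ.Afe
import Pool.Agent.Y122.TQ.Tr
import Pool.Agent.Y93.TQ.Th1
import Pool.Agent.Y79.TQ.Th2
import Pool.Agent.Y606.TQ.Msr
import Pool.Agent.Y3.TQ.Zz
import Pool.Agent.Y676.TQ.Pvj
import Pool.Agent.Y737.TQ.Ep
import Pool.Agent.Y297.TQ.Abs
import Pool.Agent.Y255.TQ.Orth
import Pool.Agent.Y960.TQ.Msp
import Pool.Agent.Y182.TQ.Mtb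
import Pool.Agent.Y182.TQ.Big
import Pool.Agent.Y936.TQ.Fin
import Pool.Agent.Y813.TQ.Sm
import Pool.Agent.Y799.TQ.Cb
import Pool.Agent.Y914.TQ.F23
import Pool.Agent.Y845.TQ.Lc
import Pool.Agent.Y339.TQ.Mom
import Pool.Agent.Y122.TQ.Ld

set_option autoImplicit false

/-! Assembly. -/

namespace Pool.Agent.Y122.TQ

theorem a_MSP : S_MSP := Pool.Agent.Y960.TQ.MSP Pool.Agent.Y255.TQ.ORTH Pool.Agent.Y182.TQ.MTB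
theorem a_MAIN : S_MAIN := Pool.Agent.Y960.TQ.MAIN Pool.Agent.Y255.TQ.ORTH Pool.Agent.Y182.TQ.MTB
theorem a_TH2 : S_TH2 := Pool.Agent.Y79.TQ.TH2 (Pool.Agent.Y93.TQ.TH1 Pool.Agent.Y676.TQ.PVJ)
theorem a_ZZ : S_ZZ :=
  Pool.Agent.Y3.TQ.zz AFE Pool.Agent.Y79.TQ.ODD (Pool.Agent.Y182.TQ.BIG a_MSP) (Pool.Agent.Y606.TQ.Msr.MSR a_TH2)
theorem a_FAM : S_FAM := FAM Pool.Agent.Y297.TQ.ABS a_MSP a_MAIN Pool.Agent.Y182.TQ.MTB a_ZZ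
theorem a_FIN : S_FIN := Pool.Agent.Y936.TQ.FIN a_FAM Pool.Agent.Y182.TQ.MTB
theorem a_SM : S_SM := Pool.Agent.Y813.TQ.SM TR (Pool.Agent.Y799.TQ.Cb.CB AFE) a_ZZ
theorem a_FIN2 : S_FIN2 := Pool.Agent.Y914.TQ.FIN2 a_FIN a_SM TR
theorem a_FIN3 : S_FIN3 := Pool.Agent.Y914.TQ.FIN3 a_FIN TR
theorem a_EP : S_EP := Pool.Agent.Y737.TQ.EP Pool.Agent.Y182.TQ.MTB
theorem a_LC : S_LC := Pool.Agent.Y845.TQ.LC a_EP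
theorem a_MOM : S_MOM := Pool.Agent.Y339.TQ.MOM a_FIN a_LC
theorem a_LD : S_LD := LD a_MOM

end Pool.Agent.Y122.TQ
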