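import Pool.Agent.Y122.TQ.Ld

set_option autoImplicit false

/-! Large deviations from the moments; upper bounds without loss. -/

namespace Pool.Agent.Y122.TQ

open Finset Filter Topology MeasureTheory
open Pool.Agent.Y746.OA (clip clip_pos)

noncomputable section

/-- LD2: large deviations on both sides of the typical size `δ^(-1/2)`. -/
def S_LD2 : Prop := ∀ u η : ℝ, 0 < η → ∃ K C X0 δ0 : ℝ, 0 < C ∧ 0 < δ0 ∧ δ0 ≤ 1 / 16 ∧
    ∀ X : ℝ, X0 ≤ X → ∀ ε : ℤ, (ε = 1 ∨ ε = -1) →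
    ∀ δ : ℝ, C * Real.log (Real.log X) / Real.log X ≤ δ → δ ≤ δ0 →
      (1 / 2 ≤ u → X * δ ^ ((u - 1 / 2) ^ 2 / 2 + η) ≤ ({p ∈ SX ε X | δ ^ (-u) ≤ ‖Lv δ p‖}.ncard : ℝ) ∧
        ({p ∈ SX ε X | δ ^ (-u) ≤ ‖Lv δ p‖}.ncard : ℝ) ≤ K * X * δ ^ ((u - 1 / 2) ^ 2 / 2)) ∧
      (u ≤ 1 / 2 → X * δ ^ ((u - 1 / 2) ^ 2 / 2 + η) ≤ ({p ∈ SX ε X | ‖Lv δ p‖ ≤ δ ^ (-u)}.ncard : ℝ) ∧
        ({p ∈ SX ε X | ‖Lv δ p‖ ≤ δ ^ (-u)}.ncard : ℝ) ≤ K * X * δ ^ ((u - 1 / 2) ^ 2 / 2))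

theorem LD2 (h : S_MOM) : S_LD2 := by
  intro u η hη
  set b : ℝ := |u - 1 / 2| with hb
  have hb0 : 0 ≤ b := abs_nonneg _
  set g : ℝ := min 1 (η / (2 * (2 * b + 2))) with hg
  have hg0 : 0 < g := lt_min one_pos (by positivity)
  have hg1 : g ≤ 1 := min_le_left _ _
  have hgη : 2 * g * b + 3 * g ^ 2 / 2 ≤ η / 2 := by
    have h1 : g ≤ η / (2 * (2 * b + 2)) := min_le_right _ _
    calc 2 * g * b + 3 * g ^ 2 / 2 ≤ g * (2 * b + 2) := by nlinarith
      _ ≤ (η / (2 * (2 * b + 2))) * (2 * b + 2) := mul_le_mul_of_nonneg_right h1 (by positivity)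
      _ = η / 2 := by field_simp
  obtain ⟨K, hK⟩ := exists_nat_gt |u|
  obtain ⟨hK1, hK2⟩ := abs_lt.mp hK
  classical
  obtain ⟨A, C, X0, δ0, c1, c2, hC, hδ0, hδ016, hc1, hc2, hm⟩ :=
    h ({b, b + g, b + 2 * g, -b, -(b + g), -(b + 2 * g)} : Finset ℝ) K
  have hev := (ev_small (c1 / (4 * c2)) (g ^ 2 / 2) (by positivity) (by positivity)).and
    (ev_small (c1 / 2) (η / 2) (by positivity) (by positivity))
  rw [eventually_nhdsWithin_iff, Metric.eventually_nhds_iff] at hev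
  obtain ⟨r, hr, hev⟩ := hev
  refine ⟨c2, C, X0, min δ0 (r / 2), hC, lt_min hδ0 (by positivity), (min_le_left _ _).trans hδ016,
    fun X hX ε hε δ hδ hδ1 => ?_⟩
  obtain ⟨hfin, hXp, hδp, hV1, hKV, hmom⟩ := hm X hX ε hε δ hδ (hδ1.trans (min_le_left _ _))
  have hδr : δ < r := by
    have := hδ1.trans (min_le_right _ _)
    linarith
  have hδlt : δ < 1 := by
    have := hδ1.trans (min_le_left _ _)
    linarith
  obtain ⟨s1, s3⟩ := hev (y := δ) (by rw [Real.dist_eq, sub_zero, abs_of_pos hδp]; exact hδr) hδp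
  have s1' : 4 * c2 * δ ^ (g ^ 2 / 2) ≤ c1 := by
    rw [le_div_iff₀ (by positivity)] at s1
    linarith
  set V := Real.log X ^ A with hVd
  set Ω := hfin.toFinset with hΩ
  set w : (Σ N : ℕ, DirichletCharacter ℂ N) → ℝ := fun p => clip V ‖Lv δ p‖ with hwd
  have hw0 : ∀ p, 0 < w p := fun p => clip_pos hV1
  have hmo : ∀ γ : ℝ, ∑ᶠ p ∈ SX ε X, clip V ‖Lv δ p‖ ^ γ = ∑ p ∈ Ω, w p ^ γ := by
    intro γ
    rw [finsum_mem_eq_finite_toFinset_sum _ hfin]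
  have hxV : δ ^ (-u) < V := by
    refine lt_of_lt_of_le ?_ hKV
    exact Real.rpow_lt_rpow_of_exponent_gt hδp hδlt (by linarith)
  have hxV' : V⁻¹ < δ ^ (-u) := by
    have h1 : V⁻¹ ≤ δ ^ ((K:ℝ)) := by
      have h2 := inv_anti₀ (Real.rpow_pos_of_pos hδp _) hKV
      rwa [Real.rpow_neg hδp.le, inv_inv] at h2
    refine lt_of_le_of_lt h1 ?_
    exact Real.rpow_lt_rpow_of_exponent_gt hδp hδlt (by linarith)
  have hx0 : 0 < δ ^ (-u) := Real.rpow_pos_of_pos hδp _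
  constructor
  · intro hu2
    have hbu : b = u - 1 / 2 := abs_of_nonneg (by linarith)
    have k1 := (hmom b (by simp)).2
    have k2 := (hmom (b + g) (by simp)).1
    have k3 := (hmom (b + 2 * g) (by simp)).2
    rw [hmo] at k1 k2 k3
    obtain ⟨r1, r2⟩ := ld_abs Ω w (fun p _ => hw0 p) (κ := 1) (β := b) (h := g) (u := u) (by rw [hbu]; ring) hb0 hg0
      hδp hδlt hXp hc1 hc2 k1 k2 k3 s1'
    have hcard : ({p ∈ SX ε X | δ ^ (-u) ≤ ‖Lv δ p‖}.ncard : ℝ) = ((Ω.filter (fun p => δ ^ (-u) ≤ w p)).card : ℝ) := by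
      congr 1
      rw [← Set.ncard_coe_finset]
      congr 1
      ext p
      rw [Finset.coe_filter, Set.mem_setOf_eq, Set.mem_setOf_eq, hΩ, Set.Finite.mem_toFinset]
      constructor
      · rintro ⟨a1, a2⟩
        refine ⟨a1, ?_⟩
        simp only [hwd, clip]
        exact le_max_of_le_right (le_min a2 hxV.le)
      · rintro ⟨a1, a2⟩
        refine ⟨a1, ?_⟩
        simp only [hwd, clip] at a2
        rcases le_max_iff.mp a2 with a3 | a3
        · exact absurd a3 (not_le.mpr hxV')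
        · exact a3.trans (min_le_left _ _)
    rw [hcard, ← hbu]
    constructor
    · refine le_trans ?_ r2
      have e1 : X * δ ^ (b ^ 2 / 2 + η) = δ ^ (η / 2) * X * δ ^ (b ^ 2 / 2 + η / 2) := by
        have : δ ^ (b ^ 2 / 2 + η) = δ ^ (η / 2) * δ ^ (b ^ 2 / 2 + η / 2) := by
          rw [← Real.rpow_add hδp]; congr 1; ring
        rw [this]; ring
      rw [e1]
      have e2 : δ ^ (b ^ 2 / 2 + η / 2) ≤ δ ^ (b ^ 2 / 2 + 2 * g * b + 3 * g ^ 2 / 2) :=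
        Real.rpow_le_rpow_of_exponent_ge hδp hδlt.le (by linarith)
      exact mul_le_mul (mul_le_mul_of_nonneg_right s3 hXp.le) e2 (by positivity) (by positivity)
    · exact r1
  · intro hu2
    have hbu : b = 1 / 2 - u := by rw [hb, abs_of_nonpos (by linarith)]; ring
    have k1 := (hmom (-b) (by simp)).2
    have k2 := (hmom (-(b + g)) (by simp)).1
    have k3 := (hmom (-(b + 2 * g)) (by simp)).2
    rw [hmo] at k1 k2 k3
    have hinv : ∀ γ : ℝ, ∑ p ∈ Ω, w p ^ (-γ) = ∑ p ∈ Ω, (w p)⁻¹ ^ γ := by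
      intro γ
      refine sum_congr rfl fun p _ => ?_
      rw [Real.rpow_neg (hw0 p).le, Real.inv_rpow (hw0 p).le]
    rw [hinv] at k1 k2 k3
    have x1 : (-b) * (-b + 1) / 2 = b * (b + (-1)) / 2 := by ring
    have x2 : (-(b + g)) * (-(b + g) + 1) / 2 = (b + g) * (b + g + (-1)) / 2 := by ring
    have x3 : (-(b + 2 * g)) * (-(b + 2 * g) + 1) / 2 = (b + 2 * g) * (b + 2 * g + (-1)) / 2 := by ring
    rw [x1] at k1
    rw [x2] at k2
    rw [x3] at k3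
    obtain ⟨r1, r2⟩ := ld_abs Ω (fun p => (w p)⁻¹) (fun p _ => inv_pos.mpr (hw0 p)) (κ := -1) (β := b) (h := g)
      (u := -u) (by rw [hbu]; ring) hb0 hg0 hδp hδlt hXp hc1 hc2 k1 k2 k3 s1'
    have hcard : ({p ∈ SX ε X | ‖Lv δ p‖ ≤ δ ^ (-u)}.ncard : ℝ) =
        ((Ω.filter (fun p => δ ^ (-(-u)) ≤ (w p)⁻¹)).card : ℝ) := by
      congr 1
      rw [← Set.ncard_coe_finset]
      congr 1
      ext p
      rw [Finset.coe_filter, Set.mem_setOf_eq, Set.mem_setOf_eq, hΩ, Set.Finite.mem_toFinset]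
      have e0 : δ ^ (-(-u)) ≤ (w p)⁻¹ ↔ w p ≤ δ ^ (-u) := by
        rw [Real.rpow_neg hδp.le (-u)]
        exact inv_le_inv₀ hx0 (hw0 p)
      rw [e0]
      constructor
      · rintro ⟨a1, a2⟩
        refine ⟨a1, ?_⟩
        simp only [hwd, clip]
        exact max_le hxV'.le ((min_le_left _ _).trans a2)
      · rintro ⟨a1, a2⟩
        refine ⟨a1, ?_⟩
        simp only [hwd, clip] at a2
        rcases min_le_iff.mp ((le_max_right _ _).trans a2) with a3 | a3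
        · exact a3
        · exact absurd a3 (not_le.mpr hxV)
    have hbsq : (u - 1 / 2) ^ 2 = b ^ 2 := by rw [hbu]; ring
    rw [hcard, hbsq]
    constructor
    · refine le_trans ?_ r2
      have e1 : X * δ ^ (b ^ 2 / 2 + η) = δ ^ (η / 2) * X * δ ^ (b ^ 2 / 2 + η / 2) := by
        have : δ ^ (b ^ 2 / 2 + η) = δ ^ (η / 2) * δ ^ (b ^ 2 / 2 + η / 2) := by
          rw [← Real.rpow_add hδp]; congr 1; ring
        rw [this]; ring
      rw [e1]
      have e2 : δ ^ (b ^ 2 / 2 + η / 2) ≤ δ ^ (b ^ 2 / 2 + 2 * g * b + 3 * g ^ 2 / 2) :=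
        Real.rpow_le_rpow_of_exponent_ge hδp hδlt.le (by linarith)
      exact mul_le_mul (mul_le_mul_of_nonneg_right s3 hXp.le) e2 (by positivity) (by positivity)
    · exact r1

end

end Pool.Agent.Y122.TQ
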