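import Pool.Agent.Y122.TQ.Defs3
import Pool.Agent.Y339.TQ.Mom

set_option autoImplicit false

/-! Which values carry the moments. -/

namespace Pool.Agent.Y122.TQ

open Finset Filter Topology MeasureTheory
open Pool.Agent.Y746.OA (clip clip_pos)

noncomputable section

/-- the moment of order `β` is carried by values of size `δ^(-(β+1/2))` -/
lemma loc_abs {ι : Type*} (Ω : Finset ι) (w : ι → ℝ) {β h η δ X c1 c2 : ℝ}
    (hw : ∀ i ∈ Ω, 0 < w i ∨ (w i = 0 ∧ 0 < β)) (hh : 0 < h) (hδ : 0 < δ) (hc1 : 0 < c1)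
    (hc2 : 0 < c2)
    (m0 : c1 * X * δ ^ (-(β * (β + 1) / 2)) ≤ ∑ i ∈ Ω, w i ^ β)
    (m1 : ∑ i ∈ Ω, w i ^ (β + h) ≤ c2 * X * δ ^ (-((β + h) * (β + h + 1) / 2)))
    (m2 : ∑ i ∈ Ω, w i ^ (β - h) ≤ c2 * X * δ ^ (-((β - h) * (β - h + 1) / 2))) :
    ∑ i ∈ Ω with ¬ (δ ^ (-(β + 1 / 2 - η)) ≤ w i ∧ w i ≤ δ ^ (-(β + 1 / 2 + η))), w i ^ β ≤
      2 * c2 / c1 * δ ^ (h * η - h ^ 2 / 2) * ∑ i ∈ Ω, w i ^ β := by
  classical
  set x := δ ^ (-(β + 1 / 2 - η)) with hx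
  set y := δ ^ (-(β + 1 / 2 + η)) with hy
  have hx0 : 0 < x := Real.rpow_pos_of_pos hδ _
  have hy0 : 0 < y := Real.rpow_pos_of_pos hδ _
  have hwn : ∀ i ∈ Ω, 0 ≤ w i := fun i hi => by
    rcases hw i hi with h1 | h1
    · exact h1.le
    · exact h1.1.ge
  have hnn : ∀ i ∈ Ω, 0 ≤ x ^ h * w i ^ (β - h) + y ^ (-h) * w i ^ (β + h) := fun i hi =>
    add_nonneg (mul_nonneg (Real.rpow_nonneg hx0.le _) (Real.rpow_nonneg (hwn i hi) _))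
      (mul_nonneg (Real.rpow_nonneg hy0.le _) (Real.rpow_nonneg (hwn i hi) _))
  have hpt : ∀ i ∈ Ω.filter (fun i => ¬ (x ≤ w i ∧ w i ≤ y)),
      w i ^ β ≤ x ^ h * w i ^ (β - h) + y ^ (-h) * w i ^ (β + h) := by
    intro i hi
    rw [mem_filter, not_and_or, not_le, not_le] at hi
    obtain ⟨hi, h2⟩ := hi
    have a1 : 0 ≤ x ^ h * w i ^ (β - h) := mul_nonneg (Real.rpow_nonneg hx0.le _) (Real.rpow_nonneg (hwn i hi) _)
    have a2 : 0 ≤ y ^ (-h) * w i ^ (β + h) :=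
      mul_nonneg (Real.rpow_nonneg hy0.le _) (Real.rpow_nonneg (hwn i hi) _)
    rcases hw i hi with h0 | ⟨h0, hb⟩
    · rcases h2 with h3 | h3
      · have : w i ^ β ≤ x ^ h * w i ^ (β - h) := by
          have e1 : w i ^ β = w i ^ h * w i ^ (β - h) := by rw [← Real.rpow_add h0]; congr 1; ring
          rw [e1]
          exact mul_le_mul_of_nonneg_right (Real.rpow_le_rpow h0.le h3.le hh.le) (by positivity)
        linarith
      · have : w i ^ β ≤ y ^ (-h) * w i ^ (β + h) := by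
          have e1 : w i ^ β = w i ^ (-h) * w i ^ (β + h) := by rw [← Real.rpow_add h0]; congr 1; ring
          rw [e1]
          exact mul_le_mul_of_nonneg_right (Real.rpow_le_rpow_of_nonpos hy0 h3.le (by linarith)) (by positivity)
        linarith
    · have : w i ^ β = 0 := by rw [h0, Real.zero_rpow hb.ne']
      linarith
  have hsum : ∑ i ∈ Ω with ¬ (x ≤ w i ∧ w i ≤ y), w i ^ β ≤
      x ^ h * ∑ i ∈ Ω, w i ^ (β - h) + y ^ (-h) * ∑ i ∈ Ω, w i ^ (β + h) := by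
    refine (sum_le_sum hpt).trans ?_
    refine (sum_le_sum_of_subset_of_nonneg (filter_subset _ _) fun i hi _ => hnn i hi).trans (le_of_eq ?_)
    rw [sum_add_distrib, ← mul_sum, ← mul_sum]
  have e1 : x ^ h * (c2 * X * δ ^ (-((β - h) * (β - h + 1) / 2))) =
      c2 / c1 * δ ^ (h * η - h ^ 2 / 2) * (c1 * X * δ ^ (-(β * (β + 1) / 2))) := by
    have e2 : x ^ h = δ ^ (-((β + 1 / 2 - η) * h)) := by rw [hx, ← Real.rpow_mul hδ.le]; congr 1; ring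
    have e3 : δ ^ (-((β + 1 / 2 - η) * h)) * δ ^ (-((β - h) * (β - h + 1) / 2)) =
        δ ^ (h * η - h ^ 2 / 2) * δ ^ (-(β * (β + 1) / 2)) := by
      rw [← Real.rpow_add hδ, ← Real.rpow_add hδ]; congr 1; ring
    calc x ^ h * (c2 * X * δ ^ (-((β - h) * (β - h + 1) / 2))) =
        c2 * X * (δ ^ (-((β + 1 / 2 - η) * h)) * δ ^ (-((β - h) * (β - h + 1) / 2))) := by rw [e2]; ring
      _ = _ := by rw [e3]; field_simp
  have e4 : y ^ (-h) * (c2 * X * δ ^ (-((β + h) * (β + h + 1) / 2))) =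
      c2 / c1 * δ ^ (h * η - h ^ 2 / 2) * (c1 * X * δ ^ (-(β * (β + 1) / 2))) := by
    have e2 : y ^ (-h) = δ ^ ((β + 1 / 2 + η) * h) := by rw [hy, ← Real.rpow_mul hδ.le]; congr 1; ring
    have e3 : δ ^ ((β + 1 / 2 + η) * h) * δ ^ (-((β + h) * (β + h + 1) / 2)) =
        δ ^ (h * η - h ^ 2 / 2) * δ ^ (-(β * (β + 1) / 2)) := by
      rw [← Real.rpow_add hδ, ← Real.rpow_add hδ]; congr 1; ring
    calc y ^ (-h) * (c2 * X * δ ^ (-((β + h) * (β + h + 1) / 2))) =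
        c2 * X * (δ ^ ((β + 1 / 2 + η) * h) * δ ^ (-((β + h) * (β + h + 1) / 2))) := by rw [e2]; ring
      _ = _ := by rw [e3]; field_simp
  have b1 : x ^ h * ∑ i ∈ Ω, w i ^ (β - h) ≤ c2 / c1 * δ ^ (h * η - h ^ 2 / 2) * ∑ i ∈ Ω, w i ^ β := by
    refine (mul_le_mul_of_nonneg_left m2 (Real.rpow_nonneg hx0.le _)).trans ?_
    rw [e1]
    exact mul_le_mul_of_nonneg_left m0 (by positivity)
  have b2 : y ^ (-h) * ∑ i ∈ Ω, w i ^ (β + h) ≤ c2 / c1 * δ ^ (h * η - h ^ 2 / 2) * ∑ i ∈ Ω, w i ^ β := by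
    refine (mul_le_mul_of_nonneg_left m1 (Real.rpow_nonneg hy0.le _)).trans ?_
    rw [e4]
    exact mul_le_mul_of_nonneg_left m0 (by positivity)
  refine hsum.trans ?_
  have e5 : 2 * c2 / c1 * δ ^ (h * η - h ^ 2 / 2) * ∑ i ∈ Ω, w i ^ β =
      c2 / c1 * δ ^ (h * η - h ^ 2 / 2) * ∑ i ∈ Ω, w i ^ β +
      c2 / c1 * δ ^ (h * η - h ^ 2 / 2) * ∑ i ∈ Ω, w i ^ β := by ring
  rw [e5]
  exact add_le_add b1 b2

/-- uniform constants over a finite set of exponents -/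
lemma unif (h2 : S_LC) (Γ : Finset ℝ) : ∃ d0 c1 c2 : ℝ, 0 < d0 ∧ 0 < c1 ∧ 0 < c2 ∧
    (∃ m : ℕ, ∀ γ ∈ Γ, |γ| ≤ m) ∧ (∃ B : ℕ, ∀ γ ∈ Γ, 1 + |γ * (γ + 1) / 2| ≤ B) ∧
    ∀ γ ∈ Γ, ∀ δ : ℝ, 0 < δ → δ ≤ d0 → c1 * δ ^ (-(γ * (γ + 1) / 2)) ≤ lfac γ δ 2 * MT γ δ ∧
        lfac γ δ 2 * MT γ δ ≤ c2 * δ ^ (-(γ * (γ + 1) / 2)) := by
  classical
  have hone : ∀ γ : ℝ, ∃ δ0 c1 c2 : ℝ, 0 < δ0 ∧ 0 < c1 ∧ 0 < c2 ∧ (∀ δ : ℝ, 0 < δ →
      δ ≤ δ0 → c1 * δ ^ (-(γ * (γ + 1) / 2)) ≤ lfac γ δ 2 * MT γ δ ∧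
        lfac γ δ 2 * MT γ δ ≤ c2 * δ ^ (-(γ * (γ + 1) / 2))) := by
    intro γ
    obtain ⟨-, ha, ht⟩ := h2 γ
    obtain ⟨δ0, h0, c1, c2, hc1, hc2, h⟩ := Pool.Agent.Y339.TQ.one ha ht
    exact ⟨δ0, c1, c2, h0, hc1, hc2, h⟩
  choose dl k1 k2 hdl hk1 hk2 hmain using hone
  have hmin : ∀ f : ℝ → ℝ, (∀ γ, 0 < f γ) → ∃ m : ℝ, 0 < m ∧ ∀ γ ∈ Γ, m ≤ f γ := by
    intro f hf
    rcases Γ.eq_empty_or_nonempty with hΓ | hΓ
    · exact ⟨1, one_pos, fun γ hγ => by simp [hΓ] at hγ⟩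
    · obtain ⟨γ0, hγ0, h⟩ := Γ.exists_min_image f hΓ
      exact ⟨f γ0, hf γ0, h⟩
  have hmax : ∀ f : ℝ → ℝ, ∃ m : ℝ, 0 < m ∧ ∀ γ ∈ Γ, f γ ≤ m := by
    intro f
    refine ⟨∑ γ ∈ Γ, |f γ| + 1, by positivity, fun γ hγ => ?_⟩
    have h1 := Finset.single_le_sum (f := fun γ => |f γ|) (fun γ _ => abs_nonneg (f γ)) hγ
    have h2 := le_abs_self (f γ)
    linarith
  obtain ⟨d0, hd0, hd⟩ := hmin dl hdl
  obtain ⟨c1, hc1, hkc1⟩ := hmin k1 hk1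
  obtain ⟨c2, hc2, hkc2⟩ := hmax k2
  obtain ⟨mr, hmr0, hmr⟩ := hmax fun γ => |γ|
  obtain ⟨Br, hBr0, hBr⟩ := hmax fun γ => 1 + |γ * (γ + 1) / 2|
  obtain ⟨m, hm⟩ := exists_nat_ge mr
  obtain ⟨B, hB⟩ := exists_nat_ge Br
  refine ⟨d0, c1, c2, hd0, hc1, hc2, ⟨m, fun γ hγ => (hmr γ hγ).trans hm⟩, ⟨B, fun γ hγ => (hBr γ hγ).trans hB⟩,
    fun γ hγ δ hδ0 hδ => ?_⟩
  obtain ⟨m1, m2⟩ := hmain γ δ hδ0 (hδ.trans (hd γ hγ))
  have hw0 : (0:ℝ) < δ ^ (-(γ * (γ + 1) / 2)) := Real.rpow_pos_of_pos hδ0 _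
  exact ⟨(mul_le_mul_of_nonneg_right (hkc1 γ hγ) hw0.le).trans m1,
    m2.trans (mul_le_mul_of_nonneg_right (hkc2 γ hγ) hw0.le)⟩

/-- from the asymptotic formula to the order of magnitude -/
lemma ord {q c1 c2 e δ X M S E : ℝ} (hq : 0 < q) (hX : 0 < X) (hδ : 0 < δ)
    (m1 : c1 * δ ^ (-e) ≤ M) (m2 : M ≤ c2 * δ ^ (-e)) (hf : |S - q * X * M| ≤ X * E)
    (hE : E ≤ q * c1 / 2 * δ ^ (-e)) :
    q * c1 / 2 * X * δ ^ (-e) ≤ S ∧ S ≤ (q * c2 + q * c1 / 2) * X * δ ^ (-e) := by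
  set w : ℝ := δ ^ (-e) with hw
  have hw0 : 0 < w := Real.rpow_pos_of_pos hδ _
  rw [abs_le] at hf
  have h1 : X * E ≤ X * (q * c1 / 2 * w) := mul_le_mul_of_nonneg_left hE hX.le
  have h2 : q * X * (c1 * w) ≤ q * X * M := mul_le_mul_of_nonneg_left m1 (by positivity)
  have h3 : q * X * M ≤ q * X * (c2 * w) := mul_le_mul_of_nonneg_left m2 (by positivity)
  constructor
  · nlinarith [hf.1]
  · nlinarith [hf.2]

/-- `1 ≤ log log X`, and `1 / log X ≤ δ` in the range -/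
lemma rng {C X δ : ℝ} (hC : 1 ≤ C) (hX : Real.exp (Real.exp 1) ≤ X)
    (hδ : C * Real.log (Real.log X) / Real.log X ≤ δ) :
    1 < X ∧ 1 ≤ Real.log X ∧ 1 / Real.log X ≤ δ ∧ 0 < δ := by
  have he : (1 : ℝ) ≤ Real.exp 1 := Real.one_le_exp (by norm_num)
  have hX0 : 0 < X := (Real.exp_pos _).trans_le hX
  have hlX : Real.exp 1 ≤ Real.log X := by
    rw [Real.le_log_iff_exp_le hX0]; exact hX
  have hl1 : 1 ≤ Real.log X := he.trans hlX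
  have hl0 : 0 < Real.log X := by linarith
  have hll : 1 ≤ Real.log (Real.log X) := by
    rw [Real.le_log_iff_exp_le hl0]; exact hlX
  have h1 : 1 / Real.log X ≤ δ := by
    refine le_trans ?_ hδ
    rw [div_le_div_iff_of_pos_right hl0]
    nlinarith
  exact ⟨lt_of_lt_of_le (Real.one_lt_exp_iff.2 (Real.exp_pos 1)) hX, hl1, h1, lt_of_lt_of_le (by positivity) h1⟩

/-- the range with a larger constant -/
lemma rng_mono {C0 C X δ : ℝ} (h : C0 ≤ C) (hX : Real.exp (Real.exp 1) ≤ X)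
    (hδ : C * Real.log (Real.log X) / Real.log X ≤ δ) : C0 * Real.log (Real.log X) / Real.log X ≤ δ := by
  have he : (1 : ℝ) ≤ Real.exp 1 := Real.one_le_exp (by norm_num)
  have hX0 : 0 < X := (Real.exp_pos _).trans_le hX
  have hlX : Real.exp 1 ≤ Real.log X := by
    rw [Real.le_log_iff_exp_le hX0]; exact hX
  have hl1 : 1 ≤ Real.log X := he.trans hlX
  have hl0 : 0 < Real.log X := by linarith
  have hll : 1 ≤ Real.log (Real.log X) := by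
    rw [Real.le_log_iff_exp_le hl0]; exact hlX
  refine le_trans ?_ hδ
  rw [div_le_div_iff_of_pos_right hl0]
  nlinarith

/-- truncated moments: the values carrying them -/
theorem LOC3 (h1 : S_FIN) (h2 : S_LC) (β η : ℝ) (hη : 0 < η) : ∃ c κ : ℝ, 0 < c ∧ 0 < κ ∧
    ∃ (A : ℕ) (K C X0 δ0 : ℝ), 0 < C ∧ 0 < δ0 ∧
    ∀ X : ℝ, X0 ≤ X → ∀ ε : ℤ, (ε = 1 ∨ ε = -1) →
    ∀ δ : ℝ, C * Real.log (Real.log X) / Real.log X ≤ δ → δ ≤ δ0 →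
    ∀ V : ℝ, Real.log X ^ A ≤ V → V ≤ X ^ (c * δ) →
      ∑ᶠ p ∈ {p ∈ SX ε X | ¬ (δ ^ (-(β + 1 / 2 - η)) ≤ clip V ‖Lv δ p‖ ∧
          clip V ‖Lv δ p‖ ≤ δ ^ (-(β + 1 / 2 + η)))}, clip V ‖Lv δ p‖ ^ β ≤
        K * δ ^ κ * ∑ᶠ p ∈ SX ε X, clip V ‖Lv δ p‖ ^ β := by
  classical
  obtain ⟨d0, c1, c2, hd0, hc1, hc2, ⟨m, hm⟩, ⟨B, hB⟩, hmain⟩ := unif h2 {β, β + η, β - η}
  obtain ⟨c, hc, hfin⟩ := h1 m
  obtain ⟨A0, C0, X0, hC0, hfin⟩ := hfin B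
  set q : ℝ := 3 / Real.pi ^ 2 with hq
  have hq0 : 0 < q := by positivity
  set k1 : ℝ := q * c1 / 2 with hk1
  set k2 : ℝ := q * c2 + q * c1 / 2 with hk2
  have hk10 : 0 < k1 := by positivity
  have hk20 : 0 < k2 := by positivity
  refine ⟨c, η * η - η ^ 2 / 2, hc, by nlinarith, A0, 2 * k2 / k1, max C0 1, max X0 (Real.exp (Real.exp 1)),
    min (min d0 (1 / 16)) (q * c1 / 2), by positivity, by positivity, ?_⟩
  intro X hX ε hε δ hδ hδ0 V hV1 hV2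
  have hXe := (le_max_right _ _).trans hX
  obtain ⟨hX1, hl1, t1, hδp⟩ := rng (le_max_right C0 1) hXe hδ
  obtain ⟨hfinite, hfin⟩ := hfin X ((le_max_left _ _).trans hX) ε hε
  have hδd : δ ≤ d0 := hδ0.trans ((min_le_left _ _).trans (min_le_left _ _))
  have hδ16 : δ ≤ 1 / 16 := hδ0.trans ((min_le_left _ _).trans (min_le_right _ _))
  have hδq : δ ≤ q * c1 / 2 := hδ0.trans (min_le_right _ _)
  have hV : 1 ≤ V := (one_le_pow₀ hl1).trans hV1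
  have key : ∀ γ ∈ ({β, β + η, β - η} : Finset ℝ), k1 * X * δ ^ (-(γ * (γ + 1) / 2)) ≤
      ∑ p ∈ hfinite.toFinset, clip V ‖Lv δ p‖ ^ γ ∧
      ∑ p ∈ hfinite.toFinset, clip V ‖Lv δ p‖ ^ γ ≤ k2 * X * δ ^ (-(γ * (γ + 1) / 2)) := by
    intro γ hγ
    have hf := hfin δ (rng_mono (le_max_left _ _) hXe hδ) hδ16 V hV1 hV2 γ (hm γ hγ)
    obtain ⟨m1, m2⟩ := hmain γ hγ δ hδp hδd
    rw [finsum_mem_eq_finite_toFinset_sum _ hfinite] at hf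
    refine ord hq0 (by linarith) hδp m1 m2 (E := 1 / Real.log X ^ B) (by rw [mul_one_div]; exact hf) ?_
    exact Pool.Agent.Y339.TQ.err (hB γ hγ) hδp (by linarith) hδq t1 (by linarith)
  have g := loc_abs hfinite.toFinset (fun p => clip V ‖Lv δ p‖) (β := β) (h := η) (η := η) (δ := δ) (X := X)
    (fun p _ => Or.inl (clip_pos hV)) hη hδp hk10 hk20 (key β (by simp)).1 (key (β + η) (by simp)).2
    (key (β - η) (by simp)).2
  rw [finsum_mem_eq_finite_toFinset_sum _ hfinite]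
  refine le_trans (le_of_eq ?_) g
  have hsub : {p ∈ SX ε X | ¬ (δ ^ (-(β + 1 / 2 - η)) ≤ clip V ‖Lv δ p‖ ∧
          clip V ‖Lv δ p‖ ≤ δ ^ (-(β + 1 / 2 + η)))}.Finite := hfinite.subset (Set.sep_subset _ _)
  rw [finsum_mem_eq_finite_toFinset_sum _ hsub]
  refine Finset.sum_congr ?_ fun _ _ => rfl
  ext p
  simp

/-- the moments of order between 0 and 2: the values carrying them -/
theorem LOC2 (h1 : S_FIN2) (h2 : S_LC) (h3 : S_FIN) (β η : ℝ) (hβ : 0 < β) (hβ2 : β < 2) (hη : 0 < η) :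
    ∃ κ : ℝ, 0 < κ ∧ ∃ (K C X0 δ0 : ℝ), 0 < C ∧ 0 < δ0 ∧
    ∀ X : ℝ, X0 ≤ X → ∀ ε : ℤ, (ε = 1 ∨ ε = -1) →
    ∀ δ : ℝ, C * Real.log (Real.log X) / Real.log X ≤ δ → δ ≤ δ0 →
      ∑ᶠ p ∈ {p ∈ SX ε X | ¬ (δ ^ (-(β + 1 / 2 - η)) ≤ ‖Lv δ p‖ ∧
          ‖Lv δ p‖ ≤ δ ^ (-(β + 1 / 2 + η)))}, ‖Lv δ p‖ ^ β ≤
        K * δ ^ κ * ∑ᶠ p ∈ SX ε X, ‖Lv δ p‖ ^ β := by
  classical
  set h : ℝ := min η (min (β / 2) ((2 - β) / 2)) with hh
  have hh0 : 0 < h := lt_min hη (lt_min (by linarith) (by linarith))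
  have hhη : h ≤ η := min_le_left _ _
  have hhβ : h ≤ β / 2 := (min_le_right _ _).trans (min_le_left _ _)
  have hhβ2 : h ≤ (2 - β) / 2 := (min_le_right _ _).trans (min_le_right _ _)
  obtain ⟨d0, c1, c2, hd0, hc1, hc2, -, ⟨B, hB⟩, hmain⟩ := unif h2 {β, β + h, β - h}
  obtain ⟨C1, X1, hC1, hf1⟩ := h1 β hβ hβ2 B
  obtain ⟨C2, X2, hC2, hf2⟩ := h1 (β + h) (by linarith) (by linarith) B
  obtain ⟨C3, X3, hC3, hf3⟩ := h1 (β - h) (by linarith) (by linarith) B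
  obtain ⟨c0, -, hfin⟩ := h3 0
  obtain ⟨A0, C0, X0, hC0, hfin⟩ := hfin 0
  set q : ℝ := 3 / Real.pi ^ 2 with hq
  have hq0 : 0 < q := by positivity
  set k1 : ℝ := q * c1 / 2 with hk1
  set k2 : ℝ := q * c2 + q * c1 / 2 with hk2
  have hk10 : 0 < k1 := by positivity
  have hk20 : 0 < k2 := by positivity
  refine ⟨h * η - h ^ 2 / 2, by nlinarith, 2 * k2 / k1, max (max C1 C2) (max C3 1),
    max (max (max X1 X2) (max X3 X0)) (Real.exp (Real.exp 1)),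
    min (min d0 (1 / 16)) (q * c1 / 2), by positivity, by positivity, ?_⟩
  intro X hX ε hε δ hδ hδ0
  have hXe := (le_max_right _ _).trans hX
  have hXl := (le_max_left _ _).trans hX
  obtain ⟨hX1, hl1, t1, hδp⟩ := rng ((le_max_right C3 1).trans (le_max_right _ _)) hXe hδ
  obtain ⟨hfinite, -⟩ := hfin X ((le_max_right _ _).trans ((le_max_right _ _).trans hXl)) ε hε
  have hδd : δ ≤ d0 := hδ0.trans ((min_le_left _ _).trans (min_le_left _ _))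
  have hδ16 : δ ≤ 1 / 16 := hδ0.trans ((min_le_left _ _).trans (min_le_right _ _))
  have hδq : δ ≤ q * c1 / 2 := hδ0.trans (min_le_right _ _)
  have key : ∀ γ ∈ ({β, β + h, β - h} : Finset ℝ),
      |∑ᶠ p ∈ SX ε X, ‖Lv δ p‖ ^ γ - 3 / Real.pi ^ 2 * X * (lfac γ δ 2 * MT γ δ)| ≤ X / Real.log X ^ B →
      k1 * X * δ ^ (-(γ * (γ + 1) / 2)) ≤ ∑ p ∈ hfinite.toFinset, ‖Lv δ p‖ ^ γ ∧
      ∑ p ∈ hfinite.toFinset, ‖Lv δ p‖ ^ γ ≤ k2 * X * δ ^ (-(γ * (γ + 1) / 2)) := by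
    intro γ hγ hf
    obtain ⟨m1, m2⟩ := hmain γ hγ δ hδp hδd
    rw [finsum_mem_eq_finite_toFinset_sum _ hfinite] at hf
    refine ord hq0 (by linarith) hδp m1 m2 (E := 1 / Real.log X ^ B) (by rw [mul_one_div]; exact hf) ?_
    exact Pool.Agent.Y339.TQ.err (hB γ hγ) hδp (by linarith) hδq t1 (by linarith)
  have g1 := key β (by simp) (hf1 X ((le_max_left _ _).trans ((le_max_left _ _).trans hXl)) ε hε δ
    (rng_mono ((le_max_left _ _).trans (le_max_left _ _)) hXe hδ) hδ16)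
  have g2 := key (β + h) (by simp) (hf2 X ((le_max_right _ _).trans ((le_max_left _ _).trans hXl)) ε hε δ
    (rng_mono ((le_max_right _ _).trans (le_max_left _ _)) hXe hδ) hδ16)
  have g3 := key (β - h) (by simp) (hf3 X ((le_max_left _ _).trans ((le_max_right _ _).trans hXl)) ε hε δ
    (rng_mono ((le_max_left _ _).trans (le_max_right _ _)) hXe hδ) hδ16)
  have g := loc_abs hfinite.toFinset (fun p => ‖Lv δ p‖) (β := β) (h := h) (η := η) (δ := δ) (X := X)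
    (fun p _ => (lt_or_eq_of_le (norm_nonneg (Lv δ p))).imp id fun h0 => ⟨h0.symm, hβ⟩) hh0 hδp hk10 hk20
    g1.1 g2.2 g3.2
  rw [finsum_mem_eq_finite_toFinset_sum _ hfinite]
  refine le_trans (le_of_eq ?_) g
  have hsub : {p ∈ SX ε X | ¬ (δ ^ (-(β + 1 / 2 - η)) ≤ ‖Lv δ p‖ ∧
          ‖Lv δ p‖ ≤ δ ^ (-(β + 1 / 2 + η)))}.Finite := hfinite.subset (Set.sep_subset _ _)
  rw [finsum_mem_eq_finite_toFinset_sum _ hsub]
  refine Finset.sum_congr ?_ fun _ _ => rfl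
  ext p
  simp

end

end Pool.Agent.Y122.TQ
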