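import Pool.Agent.Y122.TQ.All
import Pool.Agent.Y122.TQ.Ld2
import Pool.Agent.Y122.TQ.Loc

set_option autoImplicit false

/-! Assembly, second part. -/

namespace Pool.Agent.Y122.TQ

theorem a_LD2 : S_LD2 := LD2 a_MOM

end Pool.Agent.Y122.TQ
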