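import Pool.Agent.Y122.TQ.Defs2

set_option autoImplicit false

/-! Project TQ, third part: leading constants and large deviations. -/

namespace Pool.Agent.Y122.TQ

open Finset Filter Topology MeasureTheory
open Pool.Agent.H306R2.RG
open Pool.Agent.Y746.OA (tr clip rho)

noncomputable section

/-- the arithmetic factor `a(β)`; for natural `β = k` it is `A_k(0, …, 0)` -/
def aC (β : ℝ) : ℝ := ∏' p : Nat.Primes, (1 - 1 / (p : ℝ)) ^ (β * (β + 1) / 2) * lfac β 0 p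

/-- LC: the leading constant of the main term as `δ → 0`. -/
def S_LC : Prop := ∀ β : ℝ,
    Multipliable (fun p : Nat.Primes => (1 - 1 / (p : ℝ)) ^ (β * (β + 1) / 2) * lfac β 0 p) ∧ 0 < aC β ∧
    Tendsto (fun δ : ℝ => (2 * δ) ^ (β * (β + 1) / 2) * (lfac β δ 2 * MT β δ)) (𝓝[>] 0) (𝓝 (aC β))

/-- MOM: the order of magnitude of finitely many truncated moments. -/
def S_MOM : Prop := ∀ (Γ : Finset ℝ) (K : ℕ), ∃ (A : ℕ) (C X0 δ0 c1 c2 : ℝ),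
    0 < C ∧ 0 < δ0 ∧ δ0 ≤ 1 / 16 ∧ 0 < c1 ∧ 0 < c2 ∧
    ∀ X : ℝ, X0 ≤ X → ∀ ε : ℤ, (ε = 1 ∨ ε = -1) →
    ∀ δ : ℝ, C * Real.log (Real.log X) / Real.log X ≤ δ → δ ≤ δ0 →
      (SX ε X).Finite ∧ 0 < X ∧ 0 < δ ∧ 1 ≤ Real.log X ^ A ∧ δ ^ (-(K : ℝ)) ≤ Real.log X ^ A ∧
      ∀ γ ∈ Γ,
        c1 * X * δ ^ (-(γ * (γ + 1) / 2)) ≤ ∑ᶠ p ∈ SX ε X, clip (Real.log X ^ A) ‖Lv δ p‖ ^ γ ∧
        ∑ᶠ p ∈ SX ε X, clip (Real.log X ^ A) ‖Lv δ p‖ ^ γ ≤ c2 * X * δ ^ (-(γ * (γ + 1) / 2))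

/-- LD: large deviations on both sides of the typical size `δ^(-1/2)`. -/
def S_LD : Prop := ∀ u η : ℝ, 0 < η → ∃ C X0 δ0 : ℝ, 0 < C ∧ 0 < δ0 ∧ δ0 ≤ 1 / 16 ∧
    ∀ X : ℝ, X0 ≤ X → ∀ ε : ℤ, (ε = 1 ∨ ε = -1) →
    ∀ δ : ℝ, C * Real.log (Real.log X) / Real.log X ≤ δ → δ ≤ δ0 →
      (1 / 2 ≤ u → X * δ ^ ((u - 1 / 2) ^ 2 / 2 + η) ≤ ({p ∈ SX ε X | δ ^ (-u) ≤ ‖Lv δ p‖}.ncard : ℝ) ∧
        ({p ∈ SX ε X | δ ^ (-u) ≤ ‖Lv δ p‖}.ncard : ℝ) ≤ X * δ ^ ((u - 1 / 2) ^ 2 / 2 - η)) ∧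
      (u ≤ 1 / 2 → X * δ ^ ((u - 1 / 2) ^ 2 / 2 + η) ≤ ({p ∈ SX ε X | ‖Lv δ p‖ ≤ δ ^ (-u)}.ncard : ℝ) ∧
        ({p ∈ SX ε X | ‖Lv δ p‖ ≤ δ ^ (-u)}.ncard : ℝ) ≤ X * δ ^ ((u - 1 / 2) ^ 2 / 2 - η))

end

end Pool.Agent.Y122.TQ
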