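import Pool.Agent.Y122.TQ.Fam2

set_option autoImplicit false

/-! One family: choice of the parameters. -/

namespace Pool.Agent.Y122.TQ

open Finset Filter Topology MeasureTheory
open Pool.Agent.H306R2 (dv dA dA_apply dv_one dA_zero dA_mul dv_mono dv_nonneg)
open Pool.Agent.H306R2.RZ (js nu gm)
open Pool.Agent.H306R2.RG
open Pool.Agent.Y746.OA (tr clip rho)

noncomputable section

theorem FAM (h1 : S_ABS) (h2 : S_MSP) (h3 : S_MAIN) (h4 : S_MTB) (h5 : S_ZZ) : S_FAM := by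
  intro φ hφ m
  set mm : ℕ := m + 1 with hmm
  set b : ℝ := (mm : ℝ) with hb
  set k : ℕ := 2 * mm with hk
  obtain ⟨C2, E2, hC2, hms⟩ := ms_fam h2 hφ k
  obtain ⟨C3, E3, hC3, hmain⟩ := h3 φ hφ mm
  obtain ⟨C4, E4, hC4, hmtb⟩ := h4 m
  obtain ⟨C5, E5, hC5, hzz⟩ := h5 φ hφ
  obtain ⟨hd0, hd1⟩ := fam_dens hφ
  set Cm : ℝ := C2 + C3 + C4 + C5 with hCm
  set Em : ℕ := E2 + E3 + E4 + E5 with hEm
  set G : ℝ := 4 ^ (4 * k) with hG
  set Q : ℕ := 2 * Em + 16 with hQ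
  set θ : ℝ := 1 / (16 * Q) with hθ
  have hG1 : 1 ≤ G := one_le_pow₀ (by norm_num)
  have hG0 : 0 < G := by linarith
  have hCm1 : 1 ≤ Cm := by rw [hCm]; linarith
  have hCm0 : 0 < Cm := by linarith
  have hQ16 : (16:ℝ) ≤ Q := by
    rw [hQ]; push_cast
    have : (0:ℝ) ≤ Em := Nat.cast_nonneg Em
    linarith
  have hQ0 : (0:ℝ) < Q := by linarith
  have hθ0 : 0 < θ := by positivity
  have hθ1 : θ ≤ 1 / 256 := by
    rw [hθ, div_le_div_iff₀ (by positivity) (by norm_num)]; linarith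
  have hm0 : (0:ℝ) ≤ m := Nat.cast_nonneg m
  have hbm : b = m + 1 := by rw [hb, hmm]; push_cast; ring
  have hb1 : 1 ≤ b := by rw [hbm]; linarith
  have hkb : (k:ℝ) = 2 * b := by rw [hk, hb]; push_cast; ring
  refine ⟨θ / (32 * (m + 1)), by positivity, fun B => ?_⟩
  set c : ℝ := θ / (32 * (m + 1)) with hc
  set D : ℕ := Em + 1 with hD
  set B' : ℕ := B + D + 1 with hB'
  set P : ℕ := D + B' + 3 with hP
  set C : ℝ := 32 * P / θ with hC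
  set C1 : ℝ := 32 * C5 with hC1
  have hP3 : (3:ℝ) ≤ P := by
    rw [hP]; push_cast
    have h1 : (0:ℝ) ≤ D := Nat.cast_nonneg D
    have h2 : (0:ℝ) ≤ B' := Nat.cast_nonneg B'
    linarith
  have hC0 : 0 < C := by positivity
  have hCge2 : 2 ≤ C := by
    rw [hC, le_div_iff₀ hθ0]; linarith
  have hC10 : 0 ≤ C1 := by rw [hC1]; linarith
  -- large Y
  have hev : ∀ᶠ L : ℝ in atTop, 24 ≤ L ∧ 112 * (b + 1) + 38 + (360 + 2 * C1) ≤ L ∧
      L ^ (B' + 3) * Real.exp (-(L / 2)) ≤ 1 ∧ G * Cm ^ Em ≤ L ∧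
      G * Cm * 2 ^ Q * L ^ Em ≤ Real.exp (L / 8) := by
    have a1 : Tendsto (fun L : ℝ => L ^ (B' + 3) * Real.exp (-(L / 2))) atTop (nhds 0) := by
      have a2 := (Real.tendsto_pow_mul_exp_neg_atTop_nhds_zero (B' + 3)).comp
        (tendsto_id.atTop_div_const (by norm_num : (0:ℝ) < 2))
      have a3 := a2.const_mul ((2:ℝ) ^ (B' + 3))
      rw [mul_zero] at a3
      refine a3.congr fun L => ?_
      simp only [Function.comp, id]
      rw [div_pow]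
      field_simp
    have a4 : Tendsto (fun L : ℝ => L ^ Em * Real.exp (-(L / 8))) atTop (nhds 0) := by
      have a2 := (Real.tendsto_pow_mul_exp_neg_atTop_nhds_zero Em).comp
        (tendsto_id.atTop_div_const (by norm_num : (0:ℝ) < 8))
      have a3 := a2.const_mul ((8:ℝ) ^ Em)
      rw [mul_zero] at a3
      refine a3.congr fun L => ?_
      simp only [Function.comp, id]
      rw [div_pow]
      field_simp
    have hKp : 0 < (G * Cm * 2 ^ Q)⁻¹ := by positivity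
    filter_upwards [eventually_ge_atTop 24, eventually_ge_atTop (112 * (b + 1) + 38 + (360 + 2 * C1)),
      a1.eventually (ge_mem_nhds (show (0:ℝ) < 1 by norm_num)), eventually_ge_atTop (G * Cm ^ Em),
      a4.eventually (ge_mem_nhds hKp)] with L b1 b2 b3 b4 b5
    refine ⟨b1, b2, b3, b4, ?_⟩
    rw [Real.exp_neg, ← div_eq_mul_inv, div_le_iff₀ (Real.exp_pos _)] at b5
    have b6 := mul_le_mul_of_nonneg_left b5 (by positivity : 0 ≤ G * Cm * 2 ^ Q)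
    refine b6.trans (le_of_eq ?_)
    rw [← mul_assoc, mul_inv_cancel₀ (by positivity), one_mul]
  have hev2 := (Real.tendsto_log_atTop.eventually hev).and (eventually_ge_atTop 4)
  rw [eventually_atTop] at hev2
  obtain ⟨Y0, hY0⟩ := hev2
  refine ⟨D + B' + 1, C, Y0, hC0, fun Y hY δ hδ hδ1 V hV1 hV2 β hβ => ?_⟩
  obtain ⟨⟨hL24, hbig, hexp, hGL, hKL⟩, hY4⟩ := hY0 Y hY
  have hYp : (0:ℝ) < Y := by linarith
  have hYn1 : 1 ≤ Y := by
    have : (1:ℝ) ≤ Y := by linarith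
    exact_mod_cast this
  have hYn3 : 3 ≤ Y := by
    have : (3:ℝ) ≤ Y := by linarith
    exact_mod_cast this
  set L := Real.log (Y:ℝ) with hL
  have hL0 : 0 < L := by linarith
  have hL1 : 1 ≤ L := by linarith
  have hYe : (Y:ℝ) = Real.exp L := (Real.exp_log hYp).symm
  have hlL : 1 ≤ Real.log L := by
    rw [Real.le_log_iff_exp_le hL0]
    linarith [Real.exp_one_lt_d9]
  have hδC : C * Real.log L ≤ δ * L := by rwa [div_le_iff₀ hL0] at hδ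
  have hδ2 : 2 ≤ δ * L := by
    refine le_trans ?_ hδC
    calc (2:ℝ) = 2 * 1 := by norm_num
      _ ≤ C * Real.log L := mul_le_mul hCge2 hlL (by norm_num) hC0.le
  have hδ0 : 0 < δ := by
    by_contra h
    push Not at h
    have h' := mul_nonpos_of_nonpos_of_nonneg h hL0.le
    linarith
  have h1δ : 1 / δ ≤ L := by rw [div_le_iff₀ hδ0]; linarith
  have h1L : 1 / L ≤ δ := by rw [div_le_iff₀ hL0]; linarith
  set H : ℝ := L ^ D with hH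
  have hH1 : 1 ≤ H := one_le_pow₀ hL1
  have hHδ : ∀ (C' : ℝ) (e : ℕ), 1 ≤ C' → C' ≤ Cm → e ≤ Em → G * (C' / δ) ^ e ≤ H := by
    intro C' e hC'1 hC' he
    have a1 : 1 ≤ C' / δ := by rw [le_div_iff₀ hδ0]; linarith
    have a2 : C' / δ ≤ Cm * L := by
      calc C' / δ = C' * (1 / δ) := by ring
        _ ≤ Cm * L := mul_le_mul hC' h1δ (by positivity) (by linarith)
    calc G * (C' / δ) ^ e ≤ G * (C' / δ) ^ Em := mul_le_mul_of_nonneg_left (pow_le_pow_right₀ a1 he) hG0.le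
      _ ≤ G * (Cm * L) ^ Em := mul_le_mul_of_nonneg_left (pow_le_pow_left₀ (by linarith) a2 _) hG0.le
      _ = (G * Cm ^ Em) * L ^ Em := by rw [mul_pow]; ring
      _ ≤ L * L ^ Em := mul_le_mul_of_nonneg_right hGL (by positivity)
      _ = H := by rw [hH, hD, pow_succ]; ring
  set X : ℝ := Real.exp (θ * δ * L / 32) with hX
  have hX0 : 0 < X := Real.exp_pos _
  have hLpow : ∀ n : ℕ, L ^ n = Real.exp (n * Real.log L) := by
    intro n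
    rw [mul_comm, Real.exp_mul, Real.exp_log hL0, Real.rpow_natCast]
  have hXP : L ^ P ≤ X := by
    rw [hLpow, hX]
    refine Real.exp_le_exp.mpr ?_
    have h1 : θ * (C * Real.log L) ≤ θ * (δ * L) := mul_le_mul_of_nonneg_left hδC hθ0.le
    have h2 : θ * C = 32 * P := by rw [hC]; field_simp
    rw [← mul_assoc, h2] at h1
    linarith
  have hX16 : X ^ 16 = Real.exp (θ * δ * L / 2) := by
    rw [hX, ← Real.exp_nat_mul]; congr 1; push_cast; ring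
  have hXT : X ^ 16 ≤ Real.exp (L / 16) := by
    rw [hX16]
    refine Real.exp_le_exp.mpr ?_
    have hh : θ * δ ≤ 1 / 8 := by
      calc θ * δ ≤ (1 / 256) * (1 / 16) := mul_le_mul hθ1 hδ1 hδ0.le (by norm_num)
        _ ≤ 1 / 8 := by norm_num
    have hh2 := mul_le_mul_of_nonneg_right hh hL0.le
    linarith
  -- the length
  set N : ℕ := ⌈(Y:ℝ) ^ θ⌉₊ with hN
  have hTθ : 1 ≤ (Y:ℝ) ^ θ := Real.one_le_rpow (by linarith) hθ0.le
  have hNle : (Y:ℝ) ^ θ ≤ N := Nat.le_ceil _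
  have hN1r : (1:ℝ) ≤ N := hTθ.trans hNle
  have hN1 : 1 ≤ N := by exact_mod_cast hN1r
  have hN2 : (N:ℝ) ≤ 2 * (Y:ℝ) ^ θ := by
    have := (Nat.ceil_lt_add_one (by linarith : 0 ≤ (Y:ℝ) ^ θ)).le
    linarith
  have hTθe : (Y:ℝ) ^ θ = Real.exp (θ * L) := by
    rw [hYe, ← Real.exp_mul]; congr 1; ring
  have hNQ : (N:ℝ) ^ Q ≤ 2 ^ Q * Real.exp (L / 16) := by
    calc (N:ℝ) ^ Q ≤ (2 * (Y:ℝ) ^ θ) ^ Q := pow_le_pow_left₀ (by positivity) hN2 Q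
      _ = 2 ^ Q * Real.exp (L / 16) := by
        rw [mul_pow, hTθe, ← Real.exp_nat_mul]
        congr 2
        rw [hθ]; field_simp
  have hXi : 0 < (X ^ 16)⁻¹ := by positivity
  have hLP : ∀ n : ℕ, n ≤ P → L ^ n ≤ X := fun n hn => (pow_le_pow_right₀ hL1 hn).trans hXP
  have hX1 : 1 ≤ X := by have := hLP 0 (by omega); rwa [pow_zero] at this
  have hX8 : 8 ≤ X := by
    have := hLP 1 (by omega)
    rw [pow_one] at this
    linarith
  have hX16' : (X ^ 16)⁻¹ ≤ 1 := inv_le_one_of_one_le₀ (one_le_pow₀ hX1)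
  have hY34 : (Y:ℝ) ^ (3 / 4 : ℝ) = Real.exp (3 * L / 4) := by
    rw [hYe, ← Real.exp_mul]; congr 1; ring
  have hY34' : 0 < (Y:ℝ) ^ (3 / 4 : ℝ) := by positivity
  have hbigN : ∀ (C' : ℝ) (n e : ℕ), 0 ≤ C' → C' ≤ Cm → n ≤ Q → e ≤ Em →
      G * (C' * (Y:ℝ) ^ (3 / 4 : ℝ) * (N:ℝ) ^ n) * L ^ e ≤ Y * (X ^ 16)⁻¹ := by
    intro C' n e hC'0 hC' hn he
    have a1 : (N:ℝ) ^ n ≤ 2 ^ Q * Real.exp (L / 16) := (pow_le_pow_right₀ hN1r hn).trans hNQ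
    have a2 : L ^ e ≤ L ^ Em := pow_le_pow_right₀ hL1 he
    rw [le_mul_inv_iff₀ (by positivity)]
    calc G * (C' * (Y:ℝ) ^ (3 / 4 : ℝ) * (N:ℝ) ^ n) * L ^ e * X ^ 16 ≤
        G * (Cm * (Y:ℝ) ^ (3 / 4 : ℝ) * (2 ^ Q * Real.exp (L / 16))) * L ^ Em * Real.exp (L / 16) := by
          gcongr
      _ = (G * Cm * 2 ^ Q * L ^ Em) * (Real.exp (3 * L / 4) * Real.exp (L / 16) * Real.exp (L / 16)) := by
          rw [hY34]; ring
      _ ≤ Real.exp (L / 8) * (Real.exp (3 * L / 4) * Real.exp (L / 16) * Real.exp (L / 16)) :=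
          mul_le_mul_of_nonneg_right hKL (by positivity)
      _ = Y := by
          rw [← Real.exp_add, ← Real.exp_add, ← Real.exp_add, hYe]; congr 1; ring
  have hN16 : N ^ 16 ≤ Y := by
    have a1 := hbigN 1 16 0 (by norm_num) hCm1 (by rw [hQ]; omega) (by omega)
    rw [pow_zero, mul_one, one_mul] at a1
    have a2 : (N:ℝ) ^ 16 ≤ G * ((Y:ℝ) ^ (3 / 4 : ℝ) * (N:ℝ) ^ 16) := by
      have a3 : 1 ≤ (Y:ℝ) ^ (3 / 4 : ℝ) := Real.one_le_rpow (by linarith) (by norm_num)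
      have a4 : (N:ℝ) ^ 16 ≤ (Y:ℝ) ^ (3 / 4 : ℝ) * (N:ℝ) ^ 16 := le_mul_of_one_le_left (by positivity) a3
      exact a4.trans (le_mul_of_one_le_left (by positivity) hG1)
    have a5 : (Y:ℝ) * (X ^ 16)⁻¹ ≤ Y := mul_le_of_le_one_right hYp.le hX16'
    exact_mod_cast (a2.trans a1).trans a5
  have hNδ2 : (N:ℝ) ^ (-(δ / 2)) ≤ (X ^ 16)⁻¹ := by
    calc (N:ℝ) ^ (-(δ / 2)) ≤ ((Y:ℝ) ^ θ) ^ (-(δ / 2)) :=
          Real.rpow_le_rpow_of_nonpos (by linarith) hNle (by linarith)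
      _ = (X ^ 16)⁻¹ := by
        rw [hX16, hTθe, ← Real.exp_mul, ← Real.exp_neg]; congr 1; ring
  have hNδ : (N:ℝ) ^ (-δ) ≤ (X ^ 16)⁻¹ * (X ^ 16)⁻¹ := by
    have e : (N:ℝ) ^ (-δ) = (N:ℝ) ^ (-(δ / 2)) * (N:ℝ) ^ (-(δ / 2)) := by
      rw [← Real.rpow_add (by linarith)]; congr 1; ring
    rw [e]
    exact mul_le_mul hNδ2 hNδ2 (by positivity) hXi.le
  have hNδ' : (N:ℝ) ^ (-δ) ≤ (X ^ 16)⁻¹ := hNδ.trans (mul_le_of_le_one_right hXi.le hX16')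
  obtain ⟨g1, g2, g3⟩ := hms N Y hN1 hYn1 δ hδ0 (by linarith : δ ≤ 1)
  have hC2m : C2 ≤ Cm := by rw [hCm]; linarith
  have hC3m : C3 ≤ Cm := by rw [hCm]; linarith
  have hC4m : C4 ≤ Cm := by rw [hCm]; linarith
  have hC5m : C5 ≤ Cm := by rw [hCm]; linarith
  -- the error of multiplicativity
  have hρ : rho b X ((X ^ 3)⁻¹) ⌈L⌉₊ ≤ 28 * (b + 1) / L ^ (B' + 1) := by
    have hq0 : 0 < L ^ (B' + 1) := by positivity
    unfold rho
    have r1 : Real.log (2 * X) ≤ 2 * L := by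
      rw [Real.log_mul (by norm_num) hX0.ne', hX, Real.log_exp]
      have h2 := Real.log_two_lt_d9
      have h3 : θ * δ * L / 32 ≤ L := by
        have hh : θ * δ ≤ 1 := by
          calc θ * δ ≤ (1 / 256) * (1 / 16) := mul_le_mul hθ1 hδ1 hδ0.le (by norm_num)
            _ ≤ 1 := by norm_num
        have hh2 := mul_le_mul_of_nonneg_right hh hL0.le
        linarith
      linarith
    have r0 : 0 ≤ Real.log (2 * X) := Real.log_nonneg (by linarith)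
    have r2 : (1 / 2 : ℝ) ^ ⌈L⌉₊ ≤ Real.exp (-(L / 2)) := by
      have h2 : (1 / 2 : ℝ) ≤ Real.exp (-(1 / 2)) := by
        have := Real.add_one_le_exp (-(1 / 2) : ℝ)
        linarith
      calc (1 / 2 : ℝ) ^ ⌈L⌉₊ ≤ (Real.exp (-(1 / 2))) ^ ⌈L⌉₊ := pow_le_pow_left₀ (by norm_num) h2 _
        _ = Real.exp ((⌈L⌉₊ : ℝ) * (-(1 / 2))) := by rw [Real.exp_nat_mul]
        _ ≤ _ := Real.exp_le_exp.mpr (by have := Nat.le_ceil L; linarith)
    have r3 : (1 / 2 : ℝ) ^ ⌈L⌉₊ * (2 * Real.log (2 * X)) ≤ 4 / L ^ (B' + 1) := by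
      calc (1 / 2 : ℝ) ^ ⌈L⌉₊ * (2 * Real.log (2 * X)) ≤ Real.exp (-(L / 2)) * (2 * (2 * L)) := by gcongr
        _ ≤ 4 / L ^ (B' + 1) := by
          rw [le_div_iff₀ hq0]
          have : Real.exp (-(L / 2)) * (2 * (2 * L)) * L ^ (B' + 1) = 4 * (L ^ (B' + 2) * Real.exp (-(L / 2))) := by ring
          rw [this]
          have h4 : L ^ (B' + 2) ≤ L ^ (B' + 3) := pow_le_pow_right₀ hL1 (by omega)
          have h5 := mul_le_mul_of_nonneg_right h4 (Real.exp_pos (-(L / 2))).le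
          linarith
    have r4 : 3 * (8 * X ^ 2 * (X ^ 3)⁻¹) ≤ 24 / L ^ (B' + 1) := by
      have e1 : 3 * (8 * X ^ 2 * (X ^ 3)⁻¹) = 24 / X := by field_simp; norm_num
      rw [e1]
      exact div_le_div_of_nonneg_left (by norm_num) hq0 (hLP (B' + 1) (by omega))
    calc (b + 1) * ((1 / 2) ^ ⌈L⌉₊ * (2 * Real.log (2 * X)) + 3 * (8 * X ^ 2 * (X ^ 3)⁻¹)) ≤
        (b + 1) * (4 / L ^ (B' + 1) + 24 / L ^ (B' + 1)) :=
          mul_le_mul_of_nonneg_left (add_le_add r3 r4) (by linarith)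
      _ = _ := by ring
  have hαβ : 2 * (β / 2) = β := by ring
  have hα : |β / 2| ≤ m := by
    rw [abs_div, abs_two]
    have := abs_nonneg β
    linarith
  have hαm : |β / 2| ≤ mm := hα.trans (by rw [← hb, hbm]; linarith)
  have hαk : |β / 2| ≤ k := by rw [hkb]; rw [← hb] at hαm; linarith
  have hVX : V ^ |2 * (β / 2)| ≤ X := by
    rw [hαβ]
    have hV0 : 0 ≤ V := le_trans (by positivity) hV1
    calc V ^ |β| ≤ ((Y:ℝ) ^ (c * δ)) ^ |β| := Real.rpow_le_rpow hV0 hV2 (abs_nonneg _)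
      _ = Real.exp (c * |β| * (δ * L)) := by
        rw [hYe, ← Real.exp_mul, ← Real.exp_mul]; congr 1; ring
      _ ≤ X := by
        rw [hX]
        refine Real.exp_le_exp.mpr ?_
        have h1 : c * |β| ≤ θ / 32 := by
          rw [hc, div_mul_eq_mul_div, div_le_div_iff₀ (by positivity) (by norm_num)]
          have hh : |β| ≤ m + 1 := by linarith
          calc θ * |β| * 32 = θ * (32 * |β|) := by ring
            _ ≤ θ * (32 * (m + 1)) := mul_le_mul_of_nonneg_left (by linarith) hθ0.le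
        have h2 : 0 ≤ δ * L := by positivity
        calc c * |β| * (δ * L) ≤ θ / 32 * (δ * L) := mul_le_mul_of_nonneg_right h1 h2
          _ = θ * δ * L / 32 := by ring
  obtain ⟨u1, u2⟩ := uu_bd hφ hδ0
  have hu0 : 0 < uu φ δ := by linarith
  have hβm : |(-β)| ≤ ((m : ℕ) : ℝ) := by rwa [abs_neg]
  obtain ⟨u3, u4⟩ := uu_rpow hφ hδ0 hβm
  have u5 : uu φ δ ^ (-β) ≤ G := u4.trans (pow_le_pow_right₀ (by norm_num) (by rw [hk, hmm]; omega))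
  have hMT0 := MT_nonneg h3 hφ β hδ0 (by linarith : δ ≤ 1)
  obtain ⟨_, hMT1⟩ := hmtb β hβ δ hδ0 (by linarith)
  rw [abs_of_nonneg hMT0] at hMT1
  set S : ℝ := dens φ * (uu φ δ ^ (-β) * MT β δ) with hS
  have hS0 : 0 ≤ S := by positivity
  have hSH : S ≤ H := by
    calc S ≤ 1 * (G * (C4 / δ) ^ E4) := by
          rw [hS]
          refine mul_le_mul hd1 (mul_le_mul u5 hMT1 hMT0 hG0.le) (by positivity) (by norm_num)
      _ = G * (C4 / δ) ^ E4 := one_mul _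
      _ ≤ H := hHδ C4 E4 hC4 hC4m (by rw [hEm]; omega)
  have main := h1 (Om φ Y) (fun a d => DD φ N δ a d) (fun d => LLg φ d (1 / 2 + δ)) (β / 2) b Y L H X V C1 S B'
    (by rw [hbm]; linarith) hYp hS0 hL24 hH1 hX8 hC10 ((one_le_pow₀ hL1).trans hV1)
    (by rw [hH, ← pow_add]; exact hLP _ (by omega)) (by rw [hH, ← pow_add]; exact hV1) hVX hρ
    (fun d _ => DD_zero φ hN1 δ d) ?_ ?_ ?_ ?_ ?_ hbig
  · rw [hαβ] at main
    have e1 : dens φ * (Y:ℝ) * ((1 - φ.η * (2 : ℝ) ^ (-(1 / 2 + δ))) ^ (-β) * MT β δ) = Y * S := by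
      rw [hS]; unfold uu; ring
    rw [e1]
    refine main.trans ?_
    rw [div_le_div_iff₀ (by positivity) (by positivity)]
    have e2 : S + 1 ≤ L ^ (D + 1) := by
      have hh : (2:ℝ) * H ≤ L ^ (D + 1) := by
        rw [pow_succ, hH, mul_comm (L ^ D) L]
        exact mul_le_mul_of_nonneg_right (by linarith) (by positivity)
      linarith
    have e3 : L ^ B' = L ^ (D + 1) * L ^ B := by rw [← pow_add]; congr 1; omega
    rw [e3]
    have e4 : 0 ≤ (Y:ℝ) * L ^ B := by positivity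
    calc (Y:ℝ) * (S + 1) * L ^ B = ((Y:ℝ) * L ^ B) * (S + 1) := by ring
      _ ≤ ((Y:ℝ) * L ^ B) * L ^ (D + 1) := mul_le_mul_of_nonneg_left e2 e4
      _ = _ := by ring
  · intro a b' ha hb'
    rw [← hkb] at ha hb'
    refine (g1 a b' ha hb').trans ?_
    have e1 : G * ((Y:ℝ) * ((N : ℝ) ^ (-δ) * (C2 / δ) ^ E2)) ≤ Y * ((X ^ 16)⁻¹ * H) := by
      calc G * ((Y:ℝ) * ((N : ℝ) ^ (-δ) * (C2 / δ) ^ E2)) = Y * ((N : ℝ) ^ (-δ) * (G * (C2 / δ) ^ E2)) := by ring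
        _ ≤ Y * ((X ^ 16)⁻¹ * H) := by
          refine mul_le_mul_of_nonneg_left ?_ hYp.le
          exact mul_le_mul hNδ' (hHδ C2 E2 hC2 hC2m (by rw [hEm]; omega)) (by positivity) hXi.le
    have e2 := hbigN C2 (2 * E2) 0 (by linarith) hC2m (by rw [hQ, hEm]; omega) (by omega)
    rw [pow_zero, mul_one] at e2
    have e3 : (Y:ℝ) * (X ^ 16)⁻¹ ≤ Y * ((X ^ 16)⁻¹ * H) := by
      refine mul_le_mul_of_nonneg_left ?_ hYp.le
      exact le_mul_of_one_le_right hXi.le hH1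
    calc _ = G * ((Y:ℝ) * ((N : ℝ) ^ (-δ) * (C2 / δ) ^ E2)) + G * (C2 * (Y:ℝ) ^ (3 / 4 : ℝ) * (N : ℝ) ^ (2 * E2)) := by ring
      _ ≤ Y * ((X ^ 16)⁻¹ * H) + Y * ((X ^ 16)⁻¹ * H) := add_le_add e1 (e2.trans e3)
      _ = _ := by ring
  · intro a ha
    rw [← hkb] at ha
    refine (g2 a ha).trans ?_
    have e1 : G * ((Y:ℝ) * (C2 / δ) ^ E2) ≤ Y * H := by
      calc G * ((Y:ℝ) * (C2 / δ) ^ E2) = Y * (G * (C2 / δ) ^ E2) := by ring
        _ ≤ _ := mul_le_mul_of_nonneg_left (hHδ C2 E2 hC2 hC2m (by rw [hEm]; omega)) hYp.le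
    have e2 := hbigN C2 (2 * E2) 0 (by linarith) hC2m (by rw [hQ, hEm]; omega) (by omega)
    rw [pow_zero, mul_one] at e2
    have e3 : (Y:ℝ) * (X ^ 16)⁻¹ ≤ Y * H := mul_le_mul_of_nonneg_left (hX16'.trans hH1) hYp.le
    calc _ = G * ((Y:ℝ) * (C2 / δ) ^ E2) + G * (C2 * (Y:ℝ) ^ (3 / 4 : ℝ) * (N : ℝ) ^ (2 * E2)) := by ring
      _ ≤ Y * H + Y * H := add_le_add e1 (e2.trans e3)
      _ = _ := by ring
  · refine (g3 (β / 2) hαk).trans ?_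
    have e1 : G * ((Y:ℝ) * (C2 / δ) ^ E2) ≤ Y * H := by
      calc G * ((Y:ℝ) * (C2 / δ) ^ E2) = Y * (G * (C2 / δ) ^ E2) := by ring
        _ ≤ _ := mul_le_mul_of_nonneg_left (hHδ C2 E2 hC2 hC2m (by rw [hEm]; omega)) hYp.le
    have e2 := hbigN C2 (2 * E2) 0 (by linarith) hC2m (by rw [hQ, hEm]; omega) (by omega)
    rw [pow_zero, mul_one] at e2
    have e3 : (Y:ℝ) * (X ^ 16)⁻¹ ≤ Y * H := mul_le_mul_of_nonneg_left (hX16'.trans hH1) hYp.le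
    calc _ = G * ((Y:ℝ) * (C2 / δ) ^ E2) + G * (C2 * (Y:ℝ) ^ (3 / 4 : ℝ) * (N : ℝ) ^ (2 * E2)) := by ring
      _ ≤ Y * H + Y * H := add_le_add e1 (e2.trans e3)
      _ = _ := by ring
  · have e0 := hmain (β / 2) hαm N Y hN1 hYn1 δ hδ0 (by linarith : δ ≤ 1)
    rw [hαβ] at e0
    have e1 : (∑ d ∈ Om φ Y, DD φ N δ (β / 2) d ^ 2) - Y * S =
        uu φ δ ^ (-β) * (∑ d ∈ Om φ Y, Qo φ (fun n => tr N (dA (β / 2)) n) N δ d ^ 2 - dens φ * Y * MT β δ) := by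
      have e2 : ∀ d, DD φ N δ (β / 2) d ^ 2 = uu φ δ ^ (-β) * Qo φ (fun n => tr N (dA (β / 2)) n) N δ d ^ 2 := by
        intro d
        unfold DD
        have e3 : uu φ δ ^ (-β) = uu φ δ ^ (-(β / 2)) * uu φ δ ^ (-(β / 2)) := by
          rw [← Real.rpow_add hu0]; congr 1; ring
        rw [e3]; ring
      simp_rw [e2]
      rw [← mul_sum, hS]; ring
    rw [e1, abs_mul, abs_of_pos u3]
    have e4 : uu φ δ ^ (-β) * |∑ d ∈ Om φ Y, Qo φ (fun n => tr N (dA (β / 2)) n) N δ d ^ 2 - dens φ * Y * MT β δ| ≤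
        G * ((Y : ℝ) * ((N : ℝ) ^ (-(δ / 2)) * (C3 / δ) ^ E3) + C3 * (Y : ℝ) ^ (3 / 4 : ℝ) * (N : ℝ) ^ E3) :=
      mul_le_mul u5 e0 (abs_nonneg _) hG0.le
    refine e4.trans ?_
    have e5 : G * ((Y:ℝ) * ((N : ℝ) ^ (-(δ / 2)) * (C3 / δ) ^ E3)) ≤ Y * ((X ^ 16)⁻¹ * H) := by
      calc G * ((Y:ℝ) * ((N : ℝ) ^ (-(δ / 2)) * (C3 / δ) ^ E3)) = Y * ((N : ℝ) ^ (-(δ / 2)) * (G * (C3 / δ) ^ E3)) := by ring
        _ ≤ Y * ((X ^ 16)⁻¹ * H) := by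
          refine mul_le_mul_of_nonneg_left ?_ hYp.le
          exact mul_le_mul hNδ2 (hHδ C3 E3 hC3 hC3m (by rw [hEm]; omega)) (by positivity) hXi.le
    have e6 := hbigN C3 E3 0 (by linarith) hC3m (by rw [hQ, hEm]; omega) (by omega)
    rw [pow_zero, mul_one] at e6
    have e7 : (Y:ℝ) * (X ^ 16)⁻¹ ≤ Y * ((X ^ 16)⁻¹ * H) := by
      refine mul_le_mul_of_nonneg_left ?_ hYp.le
      exact le_mul_of_one_le_right hXi.le hH1
    calc _ = G * ((Y:ℝ) * ((N : ℝ) ^ (-(δ / 2)) * (C3 / δ) ^ E3)) + G * (C3 * (Y:ℝ) ^ (3 / 4 : ℝ) * (N : ℝ) ^ E3) := by ring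
      _ ≤ Y * ((X ^ 16)⁻¹ * H) + Y * ((X ^ 16)⁻¹ * H) := add_le_add e5 (e6.trans e7)
      _ = _ := by ring
  · have e0 := hzz N Y hN1 hYn3 hN16 δ h1L (by linarith : δ ≤ 1 / 4)
    have e1 : ∀ d, (LLg φ d (1 / 2 + δ) - DD φ N δ 1 d) ^ 2 =
        ((uu φ δ)⁻¹) ^ 2 * ((1 - φ.η * (2 : ℝ) ^ (-(1 / 2 + δ))) * LLg φ d (1 / 2 + δ) -
          Qo φ (fun _ => 1) N δ d) ^ 2 := by
      intro d
      unfold DD
      rw [Qo_one, Real.rpow_neg hu0.le, Real.rpow_one, ← mul_pow]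
      congr 1
      have : (1 - φ.η * (2 : ℝ) ^ (-(1 / 2 + δ))) = uu φ δ := rfl
      rw [this]
      field_simp
    simp_rw [e1]
    rw [← mul_sum]
    have e2 : ((uu φ δ)⁻¹) ^ 2 ≤ 16 := by
      have : (uu φ δ)⁻¹ ≤ 4 := by
        calc (uu φ δ)⁻¹ ≤ (1 / 4 : ℝ)⁻¹ := inv_anti₀ (by norm_num) u1
          _ = 4 := by norm_num
      have h0 : 0 ≤ (uu φ δ)⁻¹ := by positivity
      calc ((uu φ δ)⁻¹) ^ 2 ≤ 4 ^ 2 := pow_le_pow_left₀ h0 this 2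
        _ = 16 := by norm_num
    have e3 : C5 * L ^ E5 * ((Y:ℝ) * (N:ℝ) ^ (-δ)) ≤ C5 * (Y * (X ^ 16)⁻¹) := by
      have a1 : L ^ E5 * (X ^ 16)⁻¹ ≤ 1 := by
        rw [mul_inv_le_iff₀ (by positivity), one_mul]
        refine (hLP E5 (by rw [hP, hD, hEm]; omega)).trans ?_
        calc X = X ^ 1 := (pow_one X).symm
          _ ≤ X ^ 16 := pow_le_pow_right₀ hX1 (by norm_num)
      calc C5 * L ^ E5 * ((Y:ℝ) * (N:ℝ) ^ (-δ)) ≤ C5 * L ^ E5 * ((Y:ℝ) * ((X ^ 16)⁻¹ * (X ^ 16)⁻¹)) := by gcongr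
        _ = C5 * (Y * (X ^ 16)⁻¹) * (L ^ E5 * (X ^ 16)⁻¹) := by ring
        _ ≤ C5 * (Y * (X ^ 16)⁻¹) * 1 := mul_le_mul_of_nonneg_left a1 (by positivity)
        _ = _ := mul_one _
    have e4 : C5 * L ^ E5 * ((Y:ℝ) ^ (3 / 4 : ℝ) * (N:ℝ) ^ E5) ≤ Y * (X ^ 16)⁻¹ := by
      have a1 := hbigN C5 E5 E5 (by linarith) hC5m (by rw [hQ, hEm]; omega) (by rw [hEm]; omega)
      refine le_trans ?_ a1
      have a2 : 0 ≤ C5 * (Y:ℝ) ^ (3 / 4 : ℝ) * (N:ℝ) ^ E5 * L ^ E5 := by positivity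
      calc C5 * L ^ E5 * ((Y:ℝ) ^ (3 / 4 : ℝ) * (N:ℝ) ^ E5) = 1 * (C5 * (Y:ℝ) ^ (3 / 4 : ℝ) * (N:ℝ) ^ E5 * L ^ E5) := by ring
        _ ≤ G * (C5 * (Y:ℝ) ^ (3 / 4 : ℝ) * (N:ℝ) ^ E5 * L ^ E5) := mul_le_mul_of_nonneg_right hG1 a2
        _ = _ := by ring
    have e5 : 0 ≤ (Y:ℝ) * (X ^ 16)⁻¹ := by positivity
    have e6 : C5 * L ^ E5 * ((Y : ℝ) * (N : ℝ) ^ (-δ) + (Y : ℝ) ^ (3 / 4 : ℝ) * (N : ℝ) ^ E5) ≤
        2 * C5 * (Y * (X ^ 16)⁻¹) := by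
      calc C5 * L ^ E5 * ((Y : ℝ) * (N : ℝ) ^ (-δ) + (Y : ℝ) ^ (3 / 4 : ℝ) * (N : ℝ) ^ E5) =
          C5 * L ^ E5 * ((Y:ℝ) * (N:ℝ) ^ (-δ)) + C5 * L ^ E5 * ((Y:ℝ) ^ (3 / 4 : ℝ) * (N:ℝ) ^ E5) := by ring
        _ ≤ C5 * (Y * (X ^ 16)⁻¹) + C5 * (Y * (X ^ 16)⁻¹) :=
          add_le_add e3 (e4.trans (le_mul_of_one_le_left e5 hC5))
        _ = _ := by ring
    calc _ ≤ 16 * (2 * C5 * (Y * (X ^ 16)⁻¹)) :=
          mul_le_mul e2 (e0.trans e6) (sum_nonneg fun _ _ => sq_nonneg _) (by norm_num)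
      _ = C1 * (Y * (X ^ 16)⁻¹) * 1 := by rw [hC1]; ring
      _ ≤ C1 * (Y * (X ^ 16)⁻¹) * L := mul_le_mul_of_nonneg_left hL1 (by positivity)
      _ = _ := by ring

end

end Pool.Agent.Y122.TQ
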