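import Pool.Agent.Y122.TQ.Defs

set_option autoImplicit false

/-! Algebra of the polynomials `Qo`. -/

namespace Pool.Agent.Y122.TQ

open Finset Filter Topology MeasureTheory
open Pool.Agent.H306R2 (dv dA dA_apply dv_one dA_zero dA_mul dv_mono dv_nonneg)
open Pool.Agent.H306R2.RZ (js nu gm)
open Pool.Agent.H306R2.RG
open Pool.Agent.Y746.OA (tr clip rho tr_apply tr_vanish tr_mul_low gd gd_low gd_abs tr_abs_le dv_abs dv_abs_le mul_abs_le)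

noncomputable section

lemma jo_mul (φ : FD) (d m n : ℕ) : jo φ d (m * n) = jo φ d m * jo φ d n := by
  unfold jo
  by_cases hm : Odd m
  · by_cases hn : Odd n
    · rw [if_pos (hm.mul hn), if_pos hm, if_pos hn]
      unfold js
      have h1 : m ≠ 0 := by rintro rfl; simp at hm
      have h2 : n ≠ 0 := by rintro rfl; simp at hn
      rw [jacobiSym.mul_right' _ h1 h2]
      push_cast; ring
    · rw [if_neg hn, if_neg (fun h => hn (Nat.odd_mul.mp h).2), mul_zero]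
  · rw [if_neg hm, if_neg (fun h => hm (Nat.odd_mul.mp h).1), zero_mul]

lemma jo_one (φ : FD) (d : ℕ) : jo φ d 1 = 1 := by
  unfold jo js
  simp

lemma jo_abs_le (φ : FD) (d n : ℕ) : |jo φ d n| ≤ 1 := by
  unfold jo
  split_ifs
  · unfold js
    rcases jacobiSym.trichotomy (φ.e * (d : ℤ)) n with h | h | h <;> rw [h] <;> simp
  · simp

/-- the weight -/
def wt (φ : FD) (δ : ℝ) (d n : ℕ) : ℝ := jo φ d n * (n : ℝ) ^ (-(1 / 2 + δ))

lemma wt_mul (φ : FD) (δ : ℝ) (d m n : ℕ) : wt φ δ d (m * n) = wt φ δ d m * wt φ δ d n := by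
  unfold wt
  rw [jo_mul, Nat.cast_mul, Real.mul_rpow (Nat.cast_nonneg _) (Nat.cast_nonneg _)]
  ring

lemma Qo_eq (φ : FD) (g : ℕ → ℝ) (M : ℕ) (δ : ℝ) (d : ℕ) :
    Qo φ g M δ d = ∑ n ∈ Icc 1 M, g n * wt φ δ d n := by
  unfold Qo wt
  exact sum_congr rfl fun n _ => by ring

lemma Qo_mul (φ : FD) (A B : ArithmeticFunction ℝ) (N : ℕ) (hA : ∀ n : ℕ, N < n → A n = 0)
    (hB : ∀ n : ℕ, N < n → B n = 0) (δ : ℝ) (d : ℕ) :
    Qo φ (fun n => (A * B) n) (N * N) δ d = Qo φ A N δ d * Qo φ B N δ d := by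
  rw [Qo_eq, Qo_eq, Qo_eq, sum_mul_sum, ← sum_product']
  have hmaps : ∀ p ∈ Icc 1 N ×ˢ Icc 1 N, p.1 * p.2 ∈ Icc 1 (N * N) := by
    intro p hp
    rw [mem_product, mem_Icc, mem_Icc] at hp
    rw [mem_Icc]
    exact ⟨Nat.mul_pos hp.1.1 hp.2.1, Nat.mul_le_mul hp.1.2 hp.2.2⟩
  rw [← sum_fiberwise_of_maps_to hmaps]
  refine sum_congr rfl fun n hn => ?_
  rw [mem_Icc] at hn
  rw [ArithmeticFunction.mul_apply, sum_mul]
  symm
  refine Eq.trans (sum_congr rfl fun p hp => ?_) (sum_subset (fun p hp => ?_) fun p hp hp3 => ?_)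
  · rw [mem_filter] at hp
    rw [← hp.2, wt_mul]
    show A p.1 * wt φ δ d p.1 * (B p.2 * wt φ δ d p.2) = A p.1 * B p.2 * (wt φ δ d p.1 * wt φ δ d p.2)
    ring
  · rw [mem_filter, mem_product, mem_Icc, mem_Icc] at hp
    rw [Nat.mem_divisorsAntidiagonal]
    exact ⟨hp.2, by omega⟩
  · rw [Nat.mem_divisorsAntidiagonal] at hp
    rw [mem_filter, mem_product, mem_Icc, mem_Icc] at hp3
    obtain ⟨h1, h2⟩ := hp
    have hp1 : 1 ≤ p.1 := Nat.one_le_iff_ne_zero.mpr (fun h => h2 (by rw [← h1, h, zero_mul]))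
    have hp2 : 1 ≤ p.2 := Nat.one_le_iff_ne_zero.mpr (fun h => h2 (by rw [← h1, h, mul_zero]))
    by_cases h4 : p.1 ≤ N
    · by_cases h5 : p.2 ≤ N
      · exact absurd ⟨⟨⟨hp1, h4⟩, hp2, h5⟩, h1⟩ hp3
      · rw [hB p.2 (by omega)]; ring
    · rw [hA p.1 (by omega)]; ring

lemma Qo_mono (φ : FD) (g : ℕ → ℝ) {N M : ℕ} (h : N ≤ M) (hg : ∀ n : ℕ, N < n → g n = 0) (δ : ℝ) (d : ℕ) :
    Qo φ g M δ d = Qo φ g N δ d := by
  unfold Qo
  symm
  refine sum_subset (fun n hn => ?_) fun n hn hn2 => ?_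
  · rw [mem_Icc] at hn ⊢; omega
  · rw [mem_Icc] at hn hn2
    rw [hg n (by omega)]; ring

lemma tr_van (N : ℕ) (A : ArithmeticFunction ℝ) (n : ℕ) (h : N < n) : tr N A n = 0 := by
  rw [tr_apply, if_neg (by omega)]

lemma Qo_gd (φ : FD) {N : ℕ} (hN : 1 ≤ N) (a b δ : ℝ) (d : ℕ) :
    Qo φ (gd N a b) (N * N) δ d = Qo φ (fun n => tr N (dA (a + b)) n) N δ d -
      Qo φ (fun n => tr N (dA a) n) N δ d * Qo φ (fun n => tr N (dA b) n) N δ d := by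
  have h1 := Qo_mul φ (tr N (dA a)) (tr N (dA b)) N (tr_van N _) (tr_van N _) δ d
  have h2 := Qo_mono φ (fun n => tr N (dA (a + b)) n) (N := N) (M := N * N) (Nat.le_mul_of_pos_left N hN)
    (fun n hn => tr_van N _ n hn) δ d
  rw [← h2]
  rw [show Qo φ (fun n => tr N (dA a) n) N δ d * Qo φ (fun n => tr N (dA b) n) N δ d =
    Qo φ (fun n => (tr N (dA a) * tr N (dA b)) n) (N * N) δ d from h1.symm]
  unfold Qo gd
  rw [← sum_sub_distrib]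
  exact sum_congr rfl fun n _ => by ring

lemma Qo_sq_sq (φ : FD) {N : ℕ} (a δ : ℝ) (d : ℕ) :
    Qo φ (fun n => (tr N (dA a) * tr N (dA a)) n) (N * N) δ d ^ 2 =
      Qo φ (fun n => tr N (dA a) n) N δ d ^ 4 := by
  rw [Qo_mul φ (tr N (dA a)) (tr N (dA a)) N (tr_van N _) (tr_van N _) δ d]
  ring

lemma Qo_zero (φ : FD) {N : ℕ} (hN : 1 ≤ N) (δ : ℝ) (d : ℕ) :
    Qo φ (fun n => tr N (dA 0) n) N δ d = 1 := by
  unfold Qo
  rw [sum_eq_single 1]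
  · simp only [tr_apply]
    rw [if_pos hN, dA_apply, dv_one, jo_one]; simp
  · intro n _ h1
    simp only [tr_apply]
    rw [dA_zero, ArithmeticFunction.one_apply_ne h1]; simp
  · intro h
    exact absurd (mem_Icc.mpr ⟨le_rfl, hN⟩) h

lemma Qo_one (φ : FD) (N : ℕ) (δ : ℝ) (d : ℕ) :
    Qo φ (fun n => tr N (dA 1) n) N δ d = Qo φ (fun _ => 1) N δ d := by
  unfold Qo
  refine sum_congr rfl fun n hn => ?_
  rw [mem_Icc] at hn
  simp only [tr_apply]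
  rw [if_pos hn.2, Pool.Agent.Y746.OA.dA_one_apply hn.1]

/-- the families -/
lemma fam_eta {φ : FD} (h : Fam φ) : |φ.η| ≤ 1 := by
  obtain ⟨ε, _, h | h | h | h⟩ := h <;> subst h
  · simp [F8]
  · simp [F4]
  · simp [F1]
  · simp [F1]

lemma fam_dens {φ : FD} (h : Fam φ) : 0 < dens φ ∧ dens φ ≤ 1 := by
  have hp : 0 < Real.pi ^ 2 := by positivity
  have h9 : 9 ≤ Real.pi ^ 2 := by nlinarith [Real.pi_gt_three]
  have h8 : 8 / Real.pi ^ 2 ≤ 1 := by rw [div_le_one hp]; linarith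
  have h80 : 0 < 8 / Real.pi ^ 2 := by positivity
  have hδ : 0 < φ.δ ∧ φ.δ ≤ 1 := by
    obtain ⟨ε, _, h | h | h | h⟩ := h <;> subst h
    · simp [F8]; norm_num
    · simp [F4]; norm_num
    · simp [F1]; norm_num
    · simp [F1]; norm_num
  unfold dens
  exact ⟨mul_pos hδ.1 h80, mul_le_one₀ hδ.2 h80.le h8⟩

/-- the Euler factor at two -/
def uu (φ : FD) (δ : ℝ) : ℝ := 1 - φ.η * (2 : ℝ) ^ (-(1 / 2 + δ))

lemma uu_bd {φ : FD} (h : Fam φ) {δ : ℝ} (hδ : 0 < δ) : 1 / 4 ≤ uu φ δ ∧ uu φ δ ≤ 4 := by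
  have h1 : (2:ℝ) ^ (-(1 / 2 + δ)) ≤ 3 / 4 := by
    have h2 : (2:ℝ) ^ (-(1 / 2 + δ)) ≤ (2:ℝ) ^ (-(1 / 2 : ℝ)) :=
      Real.rpow_le_rpow_of_exponent_le (by norm_num) (by linarith)
    refine h2.trans ?_
    rw [Real.rpow_neg (by norm_num), ← Real.sqrt_eq_rpow]
    have h3 : (4:ℝ) / 3 ≤ Real.sqrt 2 := by
      apply Real.le_sqrt_of_sq_le; norm_num
    calc (Real.sqrt 2)⁻¹ ≤ (4 / 3 : ℝ)⁻¹ := inv_anti₀ (by norm_num) h3
      _ = 3 / 4 := by norm_num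
  have h0 : 0 < (2:ℝ) ^ (-(1 / 2 + δ)) := by positivity
  obtain ⟨h4, h5⟩ := abs_le.mp (fam_eta h)
  unfold uu
  constructor <;> nlinarith

lemma uu_rpow {φ : FD} (h : Fam φ) {δ : ℝ} (hδ : 0 < δ) {x : ℝ} {k : ℕ} (hx : |x| ≤ k) :
    0 < uu φ δ ^ x ∧ uu φ δ ^ x ≤ 4 ^ k := by
  obtain ⟨h1, h2⟩ := uu_bd h hδ
  have h0 : 0 < uu φ δ := by linarith
  refine ⟨Real.rpow_pos_of_pos h0 _, ?_⟩
  rw [← Real.rpow_natCast (4:ℝ) k]
  rcases le_or_gt 0 x with h3 | h3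
  · rw [abs_of_nonneg h3] at hx
    calc uu φ δ ^ x ≤ (4:ℝ) ^ x := Real.rpow_le_rpow h0.le h2 h3
      _ ≤ _ := Real.rpow_le_rpow_of_exponent_le (by norm_num) hx
  · rw [abs_of_neg h3] at hx
    calc uu φ δ ^ x ≤ (1 / 4 : ℝ) ^ x := Real.rpow_le_rpow_of_nonpos (by norm_num) h1 h3.le
      _ = (4:ℝ) ^ (-x) := by
        rw [Real.rpow_neg (by norm_num), one_div, Real.inv_rpow (by norm_num)]
      _ ≤ _ := Real.rpow_le_rpow_of_exponent_le (by norm_num) hx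

end

end Pool.Agent.Y122.TQ
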