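import Pool.Agent.Y122.TQ.Fam1

set_option autoImplicit false

/-! One family: mean squares with the factor at two. -/

namespace Pool.Agent.Y122.TQ

open Finset Filter Topology MeasureTheory
open Pool.Agent.H306R2 (dv dA dA_apply dv_one dA_zero dA_mul dv_mono dv_nonneg)
open Pool.Agent.H306R2.RZ (js nu gm)
open Pool.Agent.H306R2.RG
open Pool.Agent.Y746.OA (tr clip rho tr_apply tr_vanish tr_mul_low gd gd_low gd_abs tr_abs_le dv_abs dv_abs_le mul_abs_le)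

noncomputable section

/-- the main term is nonnegative -/
lemma MT_nonneg (h3 : S_MAIN) {φ : FD} (hφ : Fam φ) (β : ℝ) {δ : ℝ} (hδ : 0 < δ) (hδ1 : δ ≤ 1) : 0 ≤ MT β δ := by
  obtain ⟨K, hK⟩ := exists_nat_ge |β / 2|
  obtain ⟨C, E, hC, h⟩ := h3 φ hφ K
  obtain ⟨hd0, hd1⟩ := fam_dens hφ
  have hE : 2 * (β / 2) = β := by ring
  have key : ∀ N : ℕ, 1 ≤ N → -(dens φ * MT β δ) ≤ (N : ℝ) ^ (-(δ / 2)) * (C / δ) ^ E + C * (N:ℝ) ^ (-1 : ℝ) := by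
    intro N hN
    have hN0 : (0:ℝ) < N := by exact_mod_cast hN
    have hY : 1 ≤ N ^ (4 * (E + 1)) := Nat.one_le_pow _ _ hN
    have h1 := h (β / 2) hK N (N ^ (4 * (E + 1))) hN hY δ hδ hδ1
    rw [hE] at h1
    have h2 := (abs_le.mp h1).2
    have h4 : 0 ≤ ∑ d ∈ Om φ (N ^ (4 * (E + 1))), Qo φ (fun n => tr N (dA (β / 2)) n) N δ d ^ 2 :=
      sum_nonneg fun _ _ => sq_nonneg _
    set Y : ℝ := ((N ^ (4 * (E + 1)) : ℕ) : ℝ) with hYd
    have hY0 : 0 < Y := by rw [hYd]; exact_mod_cast hY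
    have hYe : Y = (N:ℝ) ^ ((4 * (E + 1) : ℕ) : ℝ) := by rw [hYd, Real.rpow_natCast]; push_cast; ring
    have h5 : Y * (-(dens φ * MT β δ)) ≤ Y * ((N : ℝ) ^ (-(δ / 2)) * (C / δ) ^ E + C * (N:ℝ) ^ (-1 : ℝ)) := by
      have h6 : Y ^ (3 / 4 : ℝ) * (N:ℝ) ^ E = Y * (N:ℝ) ^ (-1 : ℝ) := by
        rw [hYe, ← Real.rpow_mul hN0.le, ← Real.rpow_natCast (N:ℝ) E, ← Real.rpow_add hN0, ← Real.rpow_add hN0]
        congr 1; push_cast; ring
      have h7 : C * Y ^ (3 / 4 : ℝ) * (N:ℝ) ^ E = Y * (C * (N:ℝ) ^ (-1 : ℝ)) := by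
        rw [mul_assoc, h6]; ring
      rw [h7] at h2
      have h8 : dens φ * Y * MT β δ = Y * (dens φ * MT β δ) := by ring
      rw [h8] at h2
      nlinarith
    exact le_of_mul_le_mul_left h5 hY0
  have hlim : Tendsto (fun N : ℕ => (N : ℝ) ^ (-(δ / 2)) * (C / δ) ^ E + C * (N:ℝ) ^ (-1 : ℝ)) atTop
      (𝓝 (0 * (C / δ) ^ E + C * 0)) := by
    refine Tendsto.add (Tendsto.mul_const _ ?_) (Tendsto.const_mul _ ?_)
    · exact (tendsto_rpow_neg_atTop (by linarith : 0 < δ / 2)).comp tendsto_natCast_atTop_atTop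
    · exact (tendsto_rpow_neg_atTop (by norm_num : (0:ℝ) < 1)).comp tendsto_natCast_atTop_atTop
  have h9 : -(dens φ * MT β δ) ≤ 0 * (C / δ) ^ E + C * 0 :=
    ge_of_tendsto hlim (by filter_upwards [eventually_ge_atTop 1] with N hN; exact key N hN)
  by_contra hneg
  push Not at hneg
  nlinarith

/-- the comparison functions -/
def DD (φ : FD) (N : ℕ) (δ a : ℝ) (d : ℕ) : ℝ := uu φ δ ^ (-a) * Qo φ (fun n => tr N (dA a) n) N δ d

lemma DD_zero (φ : FD) {N : ℕ} (hN : 1 ≤ N) (δ : ℝ) (d : ℕ) : DD φ N δ 0 d = 1 := by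
  unfold DD
  rw [Qo_zero φ hN, neg_zero, Real.rpow_zero, mul_one]

lemma sq_rpow_bd {φ : FD} (h : Fam φ) {δ : ℝ} (hδ : 0 < δ) {x : ℝ} {k : ℕ} (hx : |x| ≤ k) :
    (uu φ δ ^ x) ^ 2 ≤ 4 ^ (2 * k) := by
  obtain ⟨h1, h2⟩ := uu_rpow h hδ hx
  calc (uu φ δ ^ x) ^ 2 ≤ (4 ^ k) ^ 2 := pow_le_pow_left₀ h1.le h2 2
    _ = _ := by rw [← pow_mul]; congr 1; ring

/-- all the mean squares, exponents at most `k` in absolute value -/
lemma ms_fam (h2 : S_MSP) {φ : FD} (hφ : Fam φ) (k : ℕ) : ∃ (C : ℝ) (E : ℕ), 1 ≤ C ∧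
    ∀ N Y : ℕ, 1 ≤ N → 1 ≤ Y → ∀ δ : ℝ, 0 < δ → δ ≤ 1 →
    (∀ a b : ℝ, |a| ≤ k → |b| ≤ k →
      ∑ d ∈ Om φ Y, (DD φ N δ (a + b) d - DD φ N δ a d * DD φ N δ b d) ^ 2 ≤
        4 ^ (4 * k) * ((Y : ℝ) * ((N : ℝ) ^ (-δ) * (C / δ) ^ E) + C * (Y : ℝ) ^ (3 / 4 : ℝ) * (N : ℝ) ^ (2 * E))) ∧
    (∀ a : ℝ, |a| ≤ k → ∑ d ∈ Om φ Y, DD φ N δ a d ^ 2 ≤
        4 ^ (4 * k) * ((Y : ℝ) * (C / δ) ^ E + C * (Y : ℝ) ^ (3 / 4 : ℝ) * (N : ℝ) ^ (2 * E))) ∧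
    (∀ a : ℝ, |a| ≤ k → ∑ d ∈ Om φ Y, DD φ N δ a d ^ 4 ≤
        4 ^ (4 * k) * ((Y : ℝ) * (C / δ) ^ E + C * (Y : ℝ) ^ (3 / 4 : ℝ) * (N : ℝ) ^ (2 * E))) := by
  obtain ⟨C, E, hC, h⟩ := h2 φ hφ (2 * k)
  refine ⟨C, E, hC, fun N Y hN hY δ hδ hδ1 => ?_⟩
  have hN1 : (1:ℝ) ≤ N := by exact_mod_cast hN
  have hY0 : (0:ℝ) ≤ Y := Nat.cast_nonneg _
  have hNN : 1 ≤ N * N := Nat.one_le_iff_ne_zero.mpr (by positivity)
  have ec : ((k:ℝ) + k) = ((2 * k : ℕ) : ℝ) := by push_cast; ring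
  have hkk : (k:ℝ) ≤ ((2 * k : ℕ) : ℝ) := by push_cast; linarith [(Nat.cast_nonneg k : (0:ℝ) ≤ k)]
  have eN : (((N * N : ℕ)) : ℝ) ^ E = (N:ℝ) ^ (2 * E) := by push_cast; rw [← pow_two, ← pow_mul]
  have hCδ : 0 ≤ C / δ := by positivity
  refine ⟨fun a b ha hb => ?_, fun a ha => ?_, fun a ha => ?_⟩
  · have h3 := h (gd N a b) (fun n => by
      have := gd_abs (N := N) ha hb n
      rwa [ec] at this) N (N * N) Y hN hNN hY (fun n hn => gd_low hn.le a b) δ hδ hδ1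
    rw [eN] at h3
    have e : ∀ d, (DD φ N δ (a + b) d - DD φ N δ a d * DD φ N δ b d) ^ 2 =
        (uu φ δ ^ (-(a + b))) ^ 2 * Qo φ (gd N a b) (N * N) δ d ^ 2 := by
      intro d
      rw [Qo_gd φ hN]
      unfold DD
      have h0 : 0 < uu φ δ := by linarith [(uu_bd hφ hδ).1]
      have h5 : uu φ δ ^ (-(a + b)) = uu φ δ ^ (-a) * uu φ δ ^ (-b) := by
        rw [← Real.rpow_add h0]; congr 1; ring
      rw [h5]; ring
    simp_rw [e]
    rw [← mul_sum]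
    have hx : |(-(a + b))| ≤ ((2 * k : ℕ) : ℝ) := by
      rw [abs_neg]; refine (abs_add_le a b).trans ?_
      push_cast; linarith
    have h6 := sq_rpow_bd hφ hδ hx
    rw [show 2 * (2 * k) = 4 * k by ring] at h6
    exact mul_le_mul h6 h3 (sum_nonneg fun _ _ => sq_nonneg _) (by positivity)
  · have h3 := h (fun n => tr N (dA a) n) (fun n => by
      refine (tr_abs_le (B := dA (|a|)) (fun n => dv_abs a n) n).trans ?_
      exact dv_mono (abs_nonneg _) (ha.trans hkk) n) 1 N Y le_rfl hN hY (fun n hn => by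
        have : n = 0 := by omega
        subst this; simp) δ hδ hδ1
    rw [Nat.cast_one, Real.one_rpow, one_mul] at h3
    have e : ∀ d, DD φ N δ a d ^ 2 = (uu φ δ ^ (-a)) ^ 2 * Qo φ (fun n => tr N (dA a) n) N δ d ^ 2 := by
      intro d
      unfold DD
      ring
    simp_rw [e]
    rw [← mul_sum]
    have hx : |(-a)| ≤ ((2 * k : ℕ) : ℝ) := by rw [abs_neg]; exact ha.trans hkk
    have h6 := sq_rpow_bd hφ hδ hx
    rw [show 2 * (2 * k) = 4 * k by ring] at h6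
    have h7 : (N:ℝ) ^ E ≤ (N:ℝ) ^ (2 * E) := pow_le_pow_right₀ hN1 (by omega)
    have h8 : C * (Y : ℝ) ^ (3 / 4 : ℝ) * (N : ℝ) ^ E ≤ C * (Y : ℝ) ^ (3 / 4 : ℝ) * (N : ℝ) ^ (2 * E) := by
      gcongr
    exact mul_le_mul h6 (h3.trans (add_le_add le_rfl h8)) (sum_nonneg fun _ _ => sq_nonneg _) (by positivity)
  · have h3 := h (fun n => (tr N (dA a) * tr N (dA a)) n) (fun n => by
      have := mul_abs_le (A := tr N (dA a)) (B := tr N (dA a)) (A' := dA k) (B' := dA k)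
        (tr_abs_le (fun n => dv_abs_le ha n)) (tr_abs_le (fun n => dv_abs_le ha n)) n
      rw [dA_mul, ec] at this
      exact this) 1 (N * N) Y le_rfl hNN hY (fun n hn => by
        have : n = 0 := by omega
        subst this; simp) δ hδ hδ1
    rw [Nat.cast_one, Real.one_rpow, one_mul, eN] at h3
    have e : ∀ d, DD φ N δ a d ^ 4 = (uu φ δ ^ (-(2 * a))) ^ 2 *
        Qo φ (fun n => (tr N (dA a) * tr N (dA a)) n) (N * N) δ d ^ 2 := by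
      intro d
      rw [Qo_sq_sq]
      unfold DD
      have h0 : 0 < uu φ δ := by linarith [(uu_bd hφ hδ).1]
      have h5 : uu φ δ ^ (-(2 * a)) = uu φ δ ^ (-a) * uu φ δ ^ (-a) := by
        rw [← Real.rpow_add h0]; congr 1; ring
      rw [h5]; ring
    simp_rw [e]
    rw [← mul_sum]
    have hx : |(-(2 * a))| ≤ ((2 * k : ℕ) : ℝ) := by
      rw [abs_neg, abs_mul, abs_two]; push_cast; linarith
    have h6 := sq_rpow_bd hφ hδ hx
    rw [show 2 * (2 * k) = 4 * k by ring] at h6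
    exact mul_le_mul h6 h3 (sum_nonneg fun _ _ => sq_nonneg _) (by positivity)

end

end Pool.Agent.Y122.TQ
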